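import Mathlib

namespace Pool.Agent.Lib.MP_15115f_an

open CFC

variable {A : Type*} [CStarAlgebra A] [PartialOrder A] [StarOrderedRing A]

lemma comm_sqrt {y z : A} (h : Commute y z) : Commute (sqrt y) z :=
  h.cfcₙ_nnreal _

lemma comm_of_sq {y z : A} (hy : 0 ≤ y) (h : Commute (y * y) z) : Commute y z := by
  have := comm_sqrt h
  rwa [CFC.sqrt_mul_self y hy] at this

lemma sq_inj {y z : A} (hy : 0 ≤ y) (hz : 0 ≤ z) (h : y * y = z * z) : y = z := by
  rw [← CFC.sqrt_mul_self y hy, h, CFC.sqrt_mul_self z hz]

lemma mul_eq_zero_of_sq {y X : A} (hy : 0 ≤ y) (h : y * y * X = 0) : y * X = 0 := by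
  have hs : star y = y := hy.isSelfAdjoint.star_eq
  have : star (y * X) * (y * X) = 0 := by
    rw [star_mul, hs]
    calc star X * y * (y * X) = star X * (y * y * X) := by noncomm_ring
      _ = 0 := by rw [h, mul_zero]
  exact CStarRing.star_mul_self_eq_zero_iff _ |>.mp this

lemma eq_zero_of_le_eps {Y K : A} (hY : 0 ≤ Y) (M : ℝ) (hM : 0 ≤ M)
    (h : ∀ ε : ℝ, 0 < ε → Y ≤ ((M + ε) * ε) • K) : Y = 0 := by
  have h1 : ∀ ε : ℝ, 0 < ε → ‖Y‖ ≤ ((M + ε) * ε) * ‖K‖ := by
    intro ε hε
    have := CStarAlgebra.norm_le_norm_of_nonneg_of_le hY (h ε hε)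
    rw [norm_smul, Real.norm_of_nonneg (by positivity)] at this
    exact this
  have hc : Continuous fun ε : ℝ => ((M + ε) * ε) * ‖K‖ := by fun_prop
  have ht : Filter.Tendsto (fun ε : ℝ => ((M + ε) * ε) * ‖K‖) (nhdsWithin 0 (Set.Ioi 0))
      (nhds 0) := by
    have := hc.tendsto 0
    simp only [add_zero, mul_zero, zero_mul] at this
    exact this.mono_left nhdsWithin_le_nhds
  have : ‖Y‖ ≤ 0 := ge_of_tendsto ht (by
    filter_upwards [self_mem_nhdsWithin] with ε hε using h1 ε hε)
  exact norm_le_zero_iff.mp this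

/-- Equality case of a Cauchy-Schwarz inequality for a row with commuting entries. -/
lemma cs_eq {x a g k c₁ c₂ : A} (hx : 0 ≤ x) (ha : 0 ≤ a) (hg : 0 ≤ g) (hk : 0 ≤ k)
    (hxa : Commute x a) (hxk : Commute x k)
    (hg2 : g * g = x * x + a * a) (hk2 : k * k = star c₁ * c₁ + star c₂ * c₂)
    (hD : x * c₁ + a * c₂ = g * k) : (x * c₂ - a * c₁) * x = 0 := by
  have sx : star x = x := hx.isSelfAdjoint.star_eq
  have sa : star a = a := ha.isSelfAdjoint.star_eq
  have sg : star g = g := hg.isSelfAdjoint.star_eq
  have sk : star k = k := hk.isSelfAdjoint.star_eq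
  set δ := x * c₂ - a * c₁ with hδ
  have hgg : 0 ≤ g * g := by simpa [sg] using star_mul_self_nonneg g
  have hxx : 0 ≤ x * x := by simpa [sx] using star_mul_self_nonneg x
  have haa : 0 ≤ a * a := by simpa [sa] using star_mul_self_nonneg a
  have hkk : 0 ≤ k * k := by simpa [sk] using star_mul_self_nonneg k
  have hxg2 : Commute x (g * g) := by
    rw [hg2]; exact ((Commute.refl x).mul_right (Commute.refl x)).add_right (hxa.mul_right hxa)
  have hag2 : Commute a (g * g) := by
    rw [hg2]
    exact (hxa.symm.mul_right hxa.symm).add_right ((Commute.refl a).mul_right (Commute.refl a))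
  have key : star (δ * x) * (δ * x) = 0 := by
    apply eq_zero_of_le_eps (K := k * k) (star_mul_self_nonneg _) ‖g * g‖ (norm_nonneg _)
    intro ε hε
    set N : A := g * g + ε • (1 : A) with hN
    have hε1 : IsStrictlyPositive (ε • (1 : A)) := by
      refine ⟨smul_nonneg hε.le zero_le_one, ?_⟩
      rw [← Algebra.algebraMap_eq_smul_one]
      exact (IsUnit.mk0 ε hε.ne').map _
    have hNp : IsStrictlyPositive N := IsStrictlyPositive.nonneg_add hgg hε1
    set G : A := Ring.inverse N with hG
    have hGp : 0 ≤ G := hNp.ringInverse.nonneg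
    have hNG : N * G = 1 := Ring.mul_inverse_cancel _ hNp.isUnit
    have hGN : G * N = 1 := Ring.inverse_mul_cancel _ hNp.isUnit
    have cG : ∀ y : A, Commute y (g * g) → Commute y G := by
      intro y hy
      have hyN : Commute y N := hy.add_right ((Commute.one_right y).smul_right ε)
      calc y * G = G * N * y * G := by rw [hGN, one_mul]
        _ = G * (N * y) * G := by noncomm_ring
        _ = G * (y * N) * G := by rw [hyN.eq]
        _ = G * y * (N * G) := by noncomm_ring
        _ = G * y := by rw [hNG, mul_one]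
    have hxG := cG x hxg2
    have haG := cG a hag2
    have hgG := cG g ((Commute.refl g).mul_right (Commute.refl g))
    have hggG : g * g * G = 1 - ε • G := by
      have : N * G = g * g * G + ε • G := by rw [hN, add_mul, smul_mul_assoc, one_mul]
      rw [hNG] at this
      rw [this]; abel
    -- the main identity
    have e1 : star δ * G * δ + star (x * c₁ + a * c₂) * G * (x * c₁ + a * c₂)
        = star c₁ * (g * g * G) * c₁ + star c₂ * (g * g * G) * c₂ := by
      rw [hg2, hδ]
      simp only [star_sub, star_add, star_mul, sx, sa]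
      have t1 : x * G * x = x * x * G := by rw [mul_assoc, ← hxG.eq, mul_assoc]
      have t2 : a * G * a = a * a * G := by rw [mul_assoc, ← haG.eq, mul_assoc]
      have t3 : x * G * a = a * G * x := by
        rw [mul_assoc, ← haG.eq, ← mul_assoc, hxa.eq, mul_assoc, hxG.eq, mul_assoc]
      calc _ = star c₁ * (x * G * x + a * G * a) * c₁ + star c₂ * (x * G * x + a * G * a) * c₂
            + star c₁ * (x * G * a - a * G * x) * c₂ + star c₂ * (a * G * x - x * G * a) * c₁ := by
              noncomm_ring
        _ = _ := by rw [t1, t2, t3]; noncomm_ring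
    have e2 : star (x * c₁ + a * c₂) * G * (x * c₁ + a * c₂) = k * k - ε • (k * G * k) := by
      rw [hD, star_mul, sg, sk]
      calc k * g * G * (g * k) = k * (g * (G * g)) * k := by noncomm_ring
        _ = k * (g * g * G) * k := by rw [← hgG.eq, mul_assoc g g G]
        _ = _ := by rw [hggG]; simp [mul_sub, sub_mul]
    have e3 : star δ * G * δ ≤ ε • (k * G * k) := by
      have h1 : 0 ≤ star c₁ * G * c₁ := star_left_conjugate_nonneg hGp _
      have h2 : 0 ≤ star c₂ * G * c₂ := star_left_conjugate_nonneg hGp _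
      have : star δ * G * δ = ε • (k * G * k) - ε • (star c₁ * G * c₁ + star c₂ * G * c₂) := by
        rw [e2, hggG, hk2] at e1
        simp only [mul_sub, sub_mul, mul_one, mul_smul_comm, smul_mul_assoc, smul_add] at e1 ⊢
        rw [← sub_eq_zero] at e1 ⊢
        rw [← e1]; abel
      rw [this]
      exact sub_le_self _ (smul_nonneg hε.le (add_nonneg h1 h2))
    have e4 : x * G * x ≤ 1 := by
      have : (1 : A) - x * G * x = (a * a + ε • (1 : A)) * G := by
        have t1 : x * G * x = x * x * G := by rw [mul_assoc, ← hxG.eq, mul_assoc]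
        have t2 : N * G = x * x * G + (a * a + ε • (1 : A)) * G := by
          rw [← add_mul, hN, hg2, add_assoc]
        rw [t1, sub_eq_iff_eq_add', ← t2, hNG]
      rw [← sub_nonneg, this]
      refine Commute.mul_nonneg (add_nonneg haa hε1.nonneg) hGp ?_
      exact ((haG.mul_left haG).add_left ((Commute.one_left G).smul_left ε))
    have e5 : star (δ * x) * G * (δ * x) ≤ ε • (k * k) := by
      have h1 := star_left_conjugate_le_conjugate e3 x
      have h2 := star_left_conjugate_le_conjugate e4 k
      rw [sx] at h1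
      rw [sk, mul_one] at h2
      calc star (δ * x) * G * (δ * x) = x * (star δ * G * δ) * x := by
            rw [star_mul, sx]; noncomm_ring
        _ ≤ x * (ε • (k * G * k)) * x := h1
        _ = ε • (k * (x * G * x) * k) := by
            rw [mul_smul_comm, smul_mul_assoc]
            congr 1
            calc x * (k * G * k) * x = (x * k) * G * (k * x) := by noncomm_ring
              _ = (k * x) * G * (x * k) := by rw [hxk.eq]
              _ = _ := by noncomm_ring
        _ ≤ ε • (k * k) := smul_le_smul_of_nonneg_left h2 hε.le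
    have e6 : (1 : A) ≤ (‖g * g‖ + ε) • G := by
      have : (‖g * g‖ + ε) • G - 1 = (‖g * g‖ • (1 : A) - g * g) * G := by
        rw [sub_mul, hggG, add_smul, smul_mul_assoc, one_mul]; abel
      rw [← sub_nonneg, this]
      refine Commute.mul_nonneg ?_ hGp ?_
      · rw [sub_nonneg, ← Algebra.algebraMap_eq_smul_one]
        exact hgg.isSelfAdjoint.le_algebraMap_norm_self
      · exact ((Commute.one_left G).smul_left _).sub_left (hgG.mul_left hgG)
    have e7 := star_left_conjugate_le_conjugate e6 (δ * x)
    rw [mul_one, mul_smul_comm, smul_mul_assoc] at e7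
    calc star (δ * x) * (δ * x) ≤ (‖g * g‖ + ε) • (star (δ * x) * G * (δ * x)) := e7
      _ ≤ (‖g * g‖ + ε) • (ε • (k * k)) := smul_le_smul_of_nonneg_left e5 (by positivity)
      _ = _ := by rw [smul_smul]
  exact CStarRing.star_mul_self_eq_zero_iff _ |>.mp key

end Pool.Agent.Lib.MP_15115f_an
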