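import Pool.Agent.Lib.MP_15115f_an.Core

namespace Pool.Agent.Lib.MP_15115f_an

open CFC

set_option linter.unusedSectionVars false

variable {A : Type*} [CStarAlgebra A] [PartialOrder A] [StarOrderedRing A]

/-- The purely algebraic heart: commuting data `x, a, b, F`. -/
lemma heart {x a b F g k : A} (hx : 0 ≤ x) (ha : 0 ≤ a) (hb : 0 ≤ b) (hF : 0 ≤ F)
    (hg : 0 ≤ g) (hk : 0 ≤ k) (hFF : F * F = F)
    (hxa : Commute x a) (hxb : Commute x b) (hxF : Commute x F) (hbF : b * F = b)
    (hg2 : g * g = x * x + a * a) (hk2 : k * k = b * b + x * x * F)
    (hcan : ∀ X : A, x * X = 0 → a * X = 0)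
    (hcF : Commute a b → Commute a F) :
    x * b + a * x * F = g * k ↔ a * b = x * x * F := by
  have sx : star x = x := hx.isSelfAdjoint.star_eq
  have sa : star a = a := ha.isSelfAdjoint.star_eq
  have sb : star b = b := hb.isSelfAdjoint.star_eq
  have sF : star F = F := hF.isSelfAdjoint.star_eq
  have hFb : F * b = b := by simpa [star_mul, sb, sF] using congrArg star hbF
  have cbF : Commute b F := by rw [Commute, SemiconjBy, hbF, hFb]
  have hxk : Commute x k := by
    apply Commute.symm
    apply comm_of_sq hk
    rw [hk2]
    exact (hxb.symm.mul_left hxb.symm).add_left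
      (((Commute.refl x).mul_left (Commute.refl x)).mul_left hxF.symm)
  constructor
  · intro hD
    have h1 := cs_eq (c₁ := b) (c₂ := x * F) hx ha hg hk hxa hxk hg2 (by
      rw [hk2, star_mul, sb, sx, sF]
      congr 1
      calc x * x * F = x * x * (F * F) := by rw [hFF]
        _ = x * (x * F) * F := by noncomm_ring
        _ = x * (F * x) * F := by rw [hxF.eq]
        _ = (x * F) * (x * F) := by noncomm_ring
        _ = F * x * (x * F) := by rw [hxF.eq]) (by rw [← hD, mul_assoc])
    -- h1 : (x * (x * F) - a * b) * x = 0
    set δ := x * (x * F) - a * b with hδ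
    have cδ : Commute x δ :=
      ((Commute.refl x).mul_right ((Commute.refl x).mul_right hxF)).sub_right (hxa.mul_right hxb)
    have h2 : x * δ = 0 := by rw [cδ.eq, h1]
    have h3 : a * δ = 0 := hcan _ h2
    have h4 : star δ * δ = 0 := by
      have : star δ = F * x * x - b * a := by
        rw [hδ]; simp only [star_sub, star_mul, sx, sa, sb, sF]
      rw [this, sub_mul, mul_assoc, h2, mul_assoc b, h3]; simp
    have h5 : δ = 0 := CStarRing.star_mul_self_eq_zero_iff _ |>.mp h4
    rw [hδ, sub_eq_zero] at h5
    rw [← h5, mul_assoc]
  · intro hab
    have cab : Commute a b := by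
      have := congrArg star hab
      simp only [star_mul, sx, sa, sb, sF] at this
      rw [Commute, SemiconjBy, this, hab]
      exact ((hxF.mul_left hxF).eq).trans (by noncomm_ring)
    have caF := hcF cab
    have cgk : Commute g k := by
      apply comm_of_sq hg
      apply Commute.symm
      apply comm_of_sq hk
      rw [hg2, hk2]
      refine Commute.add_left (Commute.add_right ?_ ?_) (Commute.add_right ?_ ?_)
      · exact (hxb.symm.mul_left hxb.symm).mul_right (hxb.symm.mul_left hxb.symm)
      · exact (cab.symm.mul_left cab.symm).mul_right (cab.symm.mul_left cab.symm)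
      · have := ((Commute.refl x).mul_left (Commute.refl x)).mul_left hxF.symm
        exact this.mul_right this
      · have := (hxa.mul_left hxa).mul_left caF.symm
        exact this.mul_right this
    have cga : Commute g a := by
      apply comm_of_sq hg
      rw [hg2]
      exact (hxa.mul_left hxa).add_left ((Commute.refl a).mul_left (Commute.refl a))
    apply sq_inj
    · refine add_nonneg (Commute.mul_nonneg hx hb hxb) ?_
      exact Commute.mul_nonneg (Commute.mul_nonneg ha hx hxa.symm) hF (caF.mul_left hxF)
    · exact Commute.mul_nonneg hg hk cgk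
    · have e1 : g * k * (g * k) = (g * g) * (k * k) := by
        calc g * k * (g * k) = g * (k * g) * k := by noncomm_ring
          _ = g * (g * k) * k := by rw [cgk.eq]
          _ = _ := by noncomm_ring
      rw [e1, hg2, hk2]
      have t1 : x * b * (x * b) = x * x * (b * b) := by
        calc x * b * (x * b) = x * (b * x) * b := by noncomm_ring
          _ = x * (x * b) * b := by rw [hxb.eq]
          _ = _ := by noncomm_ring
      have t2 : x * b * (a * x * F) = x * x * (x * x * F) := by
        calc x * b * (a * x * F) = x * (b * a) * x * F := by noncomm_ring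
          _ = x * (x * x * F) * x * F := by rw [← cab.eq, hab]
          _ = x * x * x * (F * x) * F := by noncomm_ring
          _ = x * x * x * (x * F) * F := by rw [hxF.eq]
          _ = x * x * x * x * (F * F) := by noncomm_ring
          _ = _ := by rw [hFF]; noncomm_ring
      have t3 : a * x * F * (x * b) = a * a * (b * b) := by
        calc a * x * F * (x * b) = a * (x * (F * x)) * b := by noncomm_ring
          _ = a * (x * x * F) * b := by rw [← hxF.eq, mul_assoc x x]
          _ = a * (a * b) * b := by rw [hab]
          _ = _ := by noncomm_ring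
      have t4 : a * x * F * (a * x * F) = a * a * (x * x * F) := by
        have c1 : Commute F (a * x) := caF.symm.mul_right hxF.symm
        calc a * x * F * (a * x * F) = a * x * (F * (a * x)) * F := by noncomm_ring
          _ = a * x * (a * x * F) * F := by rw [c1.eq]
          _ = a * (x * a) * x * (F * F) := by noncomm_ring
          _ = a * (a * x) * x * F := by rw [hxa.eq, hFF]
          _ = _ := by noncomm_ring
      calc (x * b + a * x * F) * (x * b + a * x * F)
          = x * b * (x * b) + x * b * (a * x * F) + a * x * F * (x * b)
            + a * x * F * (a * x * F) := by noncomm_ring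
        _ = _ := by rw [t1, t2, t3, t4]; noncomm_ring

end Pool.Agent.Lib.MP_15115f_an
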