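import Pool.Agent.Lib.MP_15115f_an.Loc

namespace Pool.Agent.Lib.MP_15115f_an

open CFC

set_option linter.unusedSectionVars false

variable {A : Type*} [CStarAlgebra A] [PartialOrder A] [StarOrderedRing A]

lemma th_mul {V X : A} (hV : star V * V = 1) (hX : Commute (V * star V) X) (Y : A) :
    star V * X * V * (star V * Y * V) = star V * (X * Y) * V := by
  calc star V * X * V * (star V * Y * V) = star V * (X * (V * star V)) * Y * V := by noncomm_ring
    _ = (star V * V) * star V * X * Y * V := by rw [← hX.eq]; noncomm_ring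
    _ = _ := by rw [hV]; noncomm_ring

lemma mul_V {V X : A} (hV : star V * V = 1) (hX : Commute (V * star V) X) :
    X * V = V * (star V * X * V) := by
  calc X * V = X * V * (star V * V) := by rw [hV, mul_one]
    _ = X * (V * star V) * V := by noncomm_ring
    _ = _ := by rw [← hX.eq]; noncomm_ring

lemma binormal_of_comm {V P : A} (hV : star V * V = 1) (sP : star P = P)
    (hFP : Commute (V * star V) P) (hc : Commute P (star V * P * V)) :
    Commute P (V * P * star V) := by
  have e1 : P * (V * P * star V) = V * (P * (star V * P * V)) * star V := by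
    rw [hc.eq]
    calc P * (V * P * star V) = (P * V) * P * star V := by noncomm_ring
      _ = _ := by rw [mul_V hV hFP]; noncomm_ring
  have e2 := congrArg star e1
  simp only [star_mul, star_star, sP] at e2
  rw [Commute, SemiconjBy, e1]
  calc V * (P * (star V * P * V)) * star V = V * (star V * P * V * P) * star V := by rw [hc.eq]
    _ = V * (star V * (P * V) * P * star V) := by noncomm_ring
    _ = V * (P * star V) * P := e2.symm
    _ = _ := by noncomm_ring

lemma sq_of_comm_mean {V P : A} (hV : star V * V = 1)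
    (hFP : Commute (V * star V) P) (hc : Commute (V * P) (P * V)) :
    star V * P * V * (star V * P * V) = star V * (star V * P * V) * V * P := by
  rw [th_mul hV hFP]
  calc star V * (P * P) * V = star V * (star V * V) * (P * P) * V := by rw [hV, mul_one]
    _ = star V * star V * (V * P * (P * V)) := by noncomm_ring
    _ = _ := by rw [hc.eq]; noncomm_ring

lemma comm_of_comm_mean {V P : A} (hV : star V * V = 1) (hP : 0 ≤ P)
    (hFP : Commute (V * star V) P) (hc : Commute (V * P) (P * V)) :
    Commute P (star V * P * V) := by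
  have sP : star P = P := hP.isSelfAdjoint.star_eq
  have hB : 0 ≤ star V * P * V := star_left_conjugate_nonneg hP V
  have hC : 0 ≤ star V * (star V * P * V) * V := star_left_conjugate_nonneg hB V
  have e := sq_of_comm_mean hV hFP hc
  have e2 := congrArg star e
  rw [star_mul, hB.isSelfAdjoint.star_eq, star_mul, sP, hC.isSelfAdjoint.star_eq] at e2
  apply Commute.symm
  apply comm_of_sq hB
  rw [Commute, SemiconjBy]
  nth_rewrite 1 [e2]
  rw [e, mul_assoc]

/-- The data of the local equation. -/
structure LocEq (P B C a b c g h R s : A) : Prop where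
  ha : 0 ≤ a
  hb : 0 ≤ b
  hc : 0 ≤ c
  hg : 0 ≤ g
  hh : 0 ≤ h
  hR : 0 ≤ R
  hs : 0 ≤ s
  aa : a * a = P
  bb : b * b = B
  cc : c * c = C
  hgg : g * g = a * a + b * b
  hhh : h * h = b * b + c * c
  hRR : R * R = a * (b * b) * a
  hss : s * s = b * (c * c) * b
  heq : h * g * R = b * a * R + s * (b * a)

theorem loc_eq {V P W Z : A} (hp : Pol V P) (hV : star V * V = 1)
    (hFP : Commute (V * star V) P) (hFB : Commute (V * star V) (star V * P * V))
    {S M : A} (hS : S = sqrt P * V * sqrt P) (hM : M = (1 / 2 : ℂ) • (V * P + P * V))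
    (hWS : S = W * CFC.abs S) (hZ : Pol Z (CFC.abs M)) (hZM : M = Z * CFC.abs M)
    (heq : (1 / 2 : ℂ) • (S + CFC.abs S * W) = sqrt (CFC.abs M) * Z * sqrt (CFC.abs M)) :
    ∃ a b c g h R s, LocEq P (star V * P * V) (star V * (star V * P * V) * V) a b c g h R s := by
  have hP := hp.pos
  obtain ⟨B, hB⟩ : ∃ B, B = star V * P * V := ⟨_, rfl⟩
  rw [← hB] at hFB ⊢
  have hB0 : 0 ≤ B := hB ▸ star_left_conjugate_nonneg hP V
  obtain ⟨a, ha⟩ : ∃ a, a = sqrt P := ⟨_, rfl⟩
  rw [← ha] at hS
  have ha0 : 0 ≤ a := ha ▸ sqrt_nonneg P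
  have haa : a * a = P := ha ▸ sqrt_mul_sqrt_self P hP
  have sa : star a = a := ha0.isSelfAdjoint.star_eq
  have hFa : Commute (V * star V) a := (comm_of_sq ha0 (haa ▸ hFP.symm)).symm
  obtain ⟨b, hb⟩ : ∃ b, b = star V * a * V := ⟨_, rfl⟩
  have hb0 : 0 ≤ b := hb ▸ star_left_conjugate_nonneg ha0 V
  have sb : star b = b := hb0.isSelfAdjoint.star_eq
  have hbb : b * b = B := by rw [hb, th_mul hV hFa, haa, hB]
  have hFb : Commute (V * star V) b := (comm_of_sq hb0 (hbb ▸ hFB.symm)).symm
  have hPB0 : 0 ≤ P + B := add_nonneg hP hB0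
  have hG0 : 0 ≤ (1 / 2 : ℂ) • (P + B) := half_smul_nonneg hPB0
  have hMV : M = V * ((1 / 2 : ℂ) • (P + B)) := by
    rw [hM, mul_smul_comm, mul_add, mul_V hV hFP, hB]
  have absM : CFC.abs M = (1 / 2 : ℂ) • (P + B) := by
    apply sq_inj (CFC.abs_nonneg _) hG0
    rw [abs_mul_abs, hMV, star_mul, hG0.isSelfAdjoint.star_eq, mul_assoc, ← mul_assoc (star V),
      hV, one_mul]
  have hZV : Z = V := by
    apply hZ.unique
    · rw [← hZM, absM, hMV]
    · intro X hX
      rw [← hZM, hMV] at hX
      rw [mul_smul_comm, smul_mul_assoc, smul_eq_zero] at hX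
      have h2 := hX.resolve_left (by norm_num)
      have h3 : (P + B) * X = 0 := by
        calc _ = star V * (V * (P + B) * X) := by
              rw [← mul_assoc, ← mul_assoc, hV, one_mul]
          _ = 0 := by rw [h2, mul_zero]
      have h4 : star X * P * X + star X * B * X = 0 := by
        calc _ = star X * ((P + B) * X) := by noncomm_ring
          _ = 0 := by rw [h3, mul_zero]
      have h5 : star X * P * X = 0 :=
        ((add_eq_zero_iff_of_nonneg (star_left_conjugate_nonneg hP X)
          (star_left_conjugate_nonneg hB0 X)).mp h4).1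
      have h6 : a * X = 0 := by
        apply (CStarRing.star_mul_self_eq_zero_iff _).mp
        rw [star_mul, sa, ← h5, ← haa]; noncomm_ring
      apply hp.ker2
      rw [← haa, mul_assoc, h6, mul_zero]
  rw [absM, hZV] at heq
  obtain ⟨g0, hg0⟩ : ∃ g0, g0 = sqrt ((1 / 2 : ℂ) • (P + B)) := ⟨_, rfl⟩
  rw [← hg0] at heq
  have hg00 : 0 ≤ g0 := hg0 ▸ sqrt_nonneg _
  have hg0sq : g0 * g0 = (1 / 2 : ℂ) • (P + B) := hg0 ▸ sqrt_mul_sqrt_self _ hG0
  obtain ⟨g, hg⟩ : ∃ g : A, g = (√2 : ℝ) • g0 := ⟨_, rfl⟩
  have hgpos : 0 ≤ g := hg ▸ smul_nonneg (Real.sqrt_nonneg 2) hg00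
  have two : ∀ y : A, g * y * g = (2 : ℂ) • (g0 * y * g0) := by
    intro y
    rw [hg, smul_mul_assoc, smul_mul_assoc, mul_smul_comm, smul_smul,
      Real.mul_self_sqrt (by norm_num), ← Complex.coe_smul]
    norm_num
  have hgg : g * g = P + B := by
    have := two 1
    rw [mul_one, mul_one, hg0sq, smul_smul] at this
    rw [this]; norm_num
  have hFg : Commute (V * star V) g :=
    (comm_of_sq hgpos (hgg ▸ (hFP.add_right hFB).symm)).symm
  obtain ⟨R, hR⟩ : ∃ R, R = CFC.abs S := ⟨_, rfl⟩
  have hR0 : 0 ≤ R := hR ▸ CFC.abs_nonneg S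
  have hSV : S = V * (b * a) := by rw [hS, mul_V hV hFa, ← hb, mul_assoc]
  have hRR : R * R = a * (b * b) * a := by
    rw [hR, abs_mul_abs, hSV]
    simp only [star_mul, sa, sb]
    calc a * b * star V * (V * (b * a)) = a * b * (star V * V) * (b * a) := by noncomm_ring
      _ = _ := by rw [hV]; noncomm_ring
  have hFR : Commute (V * star V) R :=
    (comm_of_sq hR0 (hRR ▸ ((hFa.mul_right (hFb.mul_right hFb)).mul_right hFa).symm)).symm
  rw [← hR] at heq hWS
  have heq2 : S + R * W = g * V * g := by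
    rw [two, ← heq, smul_smul]; norm_num
  refine ⟨a, b, star V * b * V, g, star V * g * V, R, star V * R * V, ha0, hb0,
    star_left_conjugate_nonneg hb0 V, hgpos, star_left_conjugate_nonneg hgpos V, hR0,
    star_left_conjugate_nonneg hR0 V, haa, hbb, by rw [th_mul hV hFb, hbb],
    by rw [hgg, haa, hbb], ?_, hRR, ?_, ?_⟩
  · rw [th_mul hV hFg, th_mul hV hFb, hgg, hbb, mul_add, add_mul, ← hB]
  · rw [th_mul hV hFR, th_mul hV hFb, hRR]
    nth_rewrite 3 [hb]
    nth_rewrite 5 [hb]
    rw [th_mul hV hFa, th_mul hV (hFa.mul_right (hFb.mul_right hFb))]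
  · calc star V * g * V * g * R = star V * ((S + R * W) * R) := by rw [heq2]; noncomm_ring
      _ = star V * (S * R + R * S) := by rw [add_mul, mul_assoc R W R, ← hWS]
      _ = (star V * V) * (b * a) * R + star V * R * V * (b * a) := by rw [hSV]; noncomm_ring
      _ = _ := by rw [hV, one_mul]

end Pool.Agent.Lib.MP_15115f_an
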