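import Pool.Agent.Lib.MP_15115f_an.Exists
import Pool.Agent.Lib.MP_15115f_an.Red

namespace Pool.Agent.Lib.MP_15115f_an

open CFC

set_option linter.unusedSectionVars false

variable {H : Type*} [NormedAddCommGroup H] [InnerProductSpace ℂ H] [CompleteSpace H]

lemma tracial_fd [FiniteDimensional ℂ H] : Tracial (⊤ : StarSubalgebra ℂ (H →L[ℂ] H)) := by
  intro x _ hx
  let τ : (H →L[ℂ] H) →ₗ[ℂ] ℂ := LinearMap.trace ℂ H ∘ₗ ContinuousLinearMap.coeLM ℂ
  have hτ : ∀ y : H →L[ℂ] H,
      (τ (star y * y)).re = ∑ i, ‖y (stdOrthonormalBasis ℂ H i)‖ ^ 2 := by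
    intro y
    have : τ (star y * y) = LinearMap.trace ℂ H ((star y * y : H →L[ℂ] H) : H →ₗ[ℂ] H) := rfl
    rw [this, LinearMap.trace_eq_sum_inner _ (stdOrthonormalBasis ℂ H), Complex.re_sum]
    refine Finset.sum_congr rfl fun i _ => ?_
    change (inner ℂ _ (star y (y _))).re = _
    rw [ContinuousLinearMap.star_eq_adjoint, ContinuousLinearMap.adjoint_inner_right,
      ← inner_self_eq_norm_sq (𝕜 := ℂ)]
    rfl
  have h := hx τ (fun y _ z _ => LinearMap.trace_mul_comm ℂ (y : H →ₗ[ℂ] H) (z : H →ₗ[ℂ] H))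
    (fun y _ => by rw [hτ]; positivity)
  rw [hτ] at h
  have h0 := (Finset.sum_eq_zero_iff_of_nonneg (fun i _ => sq_nonneg _)).mp
    (le_antisymm h (Finset.sum_nonneg fun i _ => sq_nonneg _))
  apply ContinuousLinearMap.coe_injective
  apply (stdOrthonormalBasis ℂ H).toBasis.ext
  intro i
  simpa using h0 i (Finset.mem_univ i)

theorem loc_comm_fd [FiniteDimensional ℂ H] {a b c g h R s : H →L[ℂ] H} (ha : 0 ≤ a) (hb : 0 ≤ b)
    (hc : 0 ≤ c) (hg : 0 ≤ g) (hh : 0 ≤ h) (hR : 0 ≤ R) (hs : 0 ≤ s) (hau : IsUnit a)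
    (hbu : IsUnit b) (hcu : IsUnit c)
    (hgg : g * g = a * a + b * b) (hhh : h * h = b * b + c * c)
    (hRR : R * R = a * (b * b) * a) (hss : s * s = b * (c * c) * b)
    (heq : h * g * R = b * a * R + s * (b * a)) : a * b = b * a :=
  loc_comm (S := ⊤) isClosed_univ tracial_fd ha hb hc hg hh hR hs hau hbu hcu
    trivial trivial trivial hgg hhh hRR hss heq

/-- Compression of an operator to a complete subspace. -/
noncomputable def res (K : Submodule ℂ H) [CompleteSpace K] (x : H →L[ℂ] H) : K →L[ℂ] K :=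
  K.orthogonalProjectionOnto ∘L x ∘L K.subtypeL

section

variable (K : Submodule ℂ H) [CompleteSpace K]

lemma res_add (x y : H →L[ℂ] H) : res K (x + y) = res K x + res K y := by
  ext v; simp [res]

lemma res_nonneg {x : H →L[ℂ] H} (hx : 0 ≤ x) : 0 ≤ res K x := by
  rw [ContinuousLinearMap.nonneg_iff_isPositive] at hx ⊢
  have := hx.adjoint_conj K.subtypeL
  rwa [Submodule.adjoint_subtypeL] at this

variable {K}

omit [CompleteSpace H] in
lemma mem_of_comm {y : H →L[ℂ] H} (hy : Commute y K.starProjection) (v : K) : y v ∈ K := by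
  have h := DFunLike.congr_fun hy.eq (v : H)
  simp only [mul_apply_eq_comp] at h
  rw [Submodule.starProjection_eq_self_iff.mpr v.2] at h
  rw [h]
  exact Submodule.starProjection_apply_mem _ _

lemma res_coe {y : H →L[ℂ] H} (hy : Commute y K.starProjection) (v : K) :
    (res K y v : H) = y v :=
  Submodule.starProjection_eq_self_iff.mpr (mem_of_comm hy v)

lemma res_mul (x : H →L[ℂ] H) {y : H →L[ℂ] H} (hy : Commute y K.starProjection) :
    res K (x * y) = res K x * res K y := by
  ext v
  change (K.orthogonalProjectionOnto (x (y v)) : H)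
    = K.orthogonalProjectionOnto (x (res K y v : H))
  rw [res_coe hy]

lemma comm_of_inv {y : H →L[ℂ] H} (hy : star y = y) (h : ∀ w ∈ K, y w ∈ K) :
    Commute y K.starProjection := by
  have e : K.starProjection * y * K.starProjection = y * K.starProjection := by
    ext v
    exact Submodule.starProjection_eq_self_iff.mpr (h _ (Submodule.starProjection_apply_mem _ _))
  have sE : star K.starProjection = K.starProjection :=
    (isSelfAdjoint_starProjection K).star_eq
  have e2 := congrArg star e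
  simp only [star_mul, sE, hy] at e2
  rw [mul_assoc] at e
  exact e.symm.trans e2

lemma res_isUnit [FiniteDimensional ℂ K] {y : H →L[ℂ] H} (hy : Commute y K.starProjection)
    (hi : ∀ v, y v = 0 → v = 0) : IsUnit (res K y) := by
  have hinj : Function.Injective (res K y) := by
    rw [injective_iff_map_eq_zero]
    intro v hv
    have := res_coe hy v
    rw [hv] at this
    exact Subtype.ext (hi _ this.symm)
  rw [ContinuousLinearMap.isUnit_iff_bijective]
  exact ⟨hinj, (LinearMap.injective_iff_surjective (f := (res K y : K →ₗ[ℂ] K))).mp hinj⟩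

end

lemma inj_of_sq {y : H →L[ℂ] H} (h : ∀ v, (y * y) v = 0 → v = 0) : ∀ v, y v = 0 → v = 0 := by
  intro v hv
  apply h
  rw [mul_apply_eq_comp, hv, map_zero]

lemma inj_th {V y : H →L[ℂ] H} (hV : star V * V = 1) (hy : Commute (V * star V) y)
    (h : ∀ v, y v = 0 → v = 0) : ∀ v, (star V * y * V) v = 0 → v = 0 := by
  intro v hv
  have e := DFunLike.congr_fun (mul_V hV hy) v
  rw [mul_apply_eq_comp V, hv, map_zero] at e
  have e2 : V v = 0 := h _ e
  have e3 := DFunLike.congr_fun hV v
  rw [mul_apply_eq_comp, e2, map_zero] at e3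
  exact e3.symm

theorem blk_comm {P B C a b c g h R s : H →L[ℂ] H} (L : LocEq P B C a b c g h R s)
    (iP : ∀ v, P v = 0 → v = 0) (iB : ∀ v, B v = 0 → v = 0) (iC : ∀ v, C v = 0 → v = 0)
    (hd : Dense {v : H | ∃ K : Submodule ℂ H, FiniteDimensional ℂ K ∧ v ∈ K ∧
      ∀ w ∈ K, P w ∈ K ∧ B w ∈ K ∧ C w ∈ K}) : Commute P B := by
  have key : Commute a b := by
    apply ContinuousLinearMap.ext
    have hcl : IsClosed {v : H | (a * b) v = (b * a) v} :=
      isClosed_eq (a * b).continuous (b * a).continuous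
    refine fun v => hcl.closure_subset_iff.mpr ?_ (hd v)
    rintro v ⟨K, hK, hv, hinv⟩
    have : CompleteSpace K := FiniteDimensional.complete ℂ K
    have sq : ∀ {y : H →L[ℂ] H}, 0 ≤ y → star (y * y) = y * y := fun hy => by
      rw [star_mul, hy.isSelfAdjoint.star_eq]
    have ca : Commute a K.starProjection :=
      comm_of_sq L.ha (comm_of_inv (sq L.ha) fun w hw => L.aa ▸ (hinv w hw).1)
    have cb : Commute b K.starProjection :=
      comm_of_sq L.hb (comm_of_inv (sq L.hb) fun w hw => L.bb ▸ (hinv w hw).2.1)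
    have cc : Commute c K.starProjection :=
      comm_of_sq L.hc (comm_of_inv (sq L.hc) fun w hw => L.cc ▸ (hinv w hw).2.2)
    have cg : Commute g K.starProjection :=
      comm_of_sq L.hg (L.hgg ▸ (ca.mul_left ca).add_left (cb.mul_left cb))
    have ch : Commute h K.starProjection :=
      comm_of_sq L.hh (L.hhh ▸ (cb.mul_left cb).add_left (cc.mul_left cc))
    have cR : Commute R K.starProjection :=
      comm_of_sq L.hR (L.hRR ▸ (ca.mul_left (cb.mul_left cb)).mul_left ca)
    have cs : Commute s K.starProjection :=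
      comm_of_sq L.hs (L.hss ▸ (cb.mul_left (cc.mul_left cc)).mul_left cb)
    have hc : res K a * res K b = res K b * res K a := loc_comm_fd (H := K)
      (res_nonneg K L.ha) (res_nonneg K L.hb) (res_nonneg K L.hc) (res_nonneg K L.hg)
      (res_nonneg K L.hh) (res_nonneg K L.hR) (res_nonneg K L.hs)
      (res_isUnit ca (inj_of_sq (L.aa ▸ iP))) (res_isUnit cb (inj_of_sq (L.bb ▸ iB)))
      (res_isUnit cc (inj_of_sq (L.cc ▸ iC)))
      (by rw [← res_mul _ cg, ← res_mul _ ca, ← res_mul _ cb, ← res_add, L.hgg])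
      (by rw [← res_mul _ ch, ← res_mul _ cb, ← res_mul _ cc, ← res_add, L.hhh])
      (by rw [← res_mul _ cR, ← res_mul _ cb, ← res_mul _ (cb.mul_left cb), ← res_mul _ ca, L.hRR])
      (by rw [← res_mul _ cs, ← res_mul _ cc, ← res_mul _ (cc.mul_left cc), ← res_mul _ cb, L.hss])
      (by rw [← res_mul _ cg, ← res_mul _ ca, ← res_mul _ cR, ← res_mul _ cR,
        ← res_mul _ (cb.mul_left ca), ← res_add, L.heq])
    have e := DFunLike.congr_fun hc ⟨v, hv⟩
    rw [← res_mul _ cb, ← res_mul _ ca] at e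
    have e2 := congrArg Subtype.val e
    rwa [res_coe (ca.mul_left cb), res_coe (cb.mul_left ca)] at e2
  rw [← L.aa, ← L.bb]
  exact (key.mul_right key).mul_left (key.mul_right key)

theorem blk_main {T V P : H →L[ℂ] H} (hT : T.ker = ⊥) (hV : V = polar T) (hP : P = CFC.abs T)
    (h1 : Commute (V * star V) P) (h2 : Commute (V * star V) (star V * P * V))
    (hd : Dense {v : H | ∃ K : Submodule ℂ H, FiniteDimensional ℂ K ∧ v ∈ K ∧
      ∀ w ∈ K, P w ∈ K ∧ (star V * P * V) w ∈ K ∧
        (star V * (star V * P * V) * V) w ∈ K}) :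
    mean (aluthge T) = aluthge (mean T) ↔ Commute T (mean T) := by
  have h := isPolar_polar T
  have hW := isPolar_polar (aluthge T)
  have hZ := isPolar_polar (mean T)
  have hp := h.pol
  have hTV := h.1
  have hker := h.2.2
  rw [← hV, ← hP] at hp hTV
  rw [← hV, hT] at hker
  have iV : ∀ v, V v = 0 → v = 0 := fun v hv => by
    have : v ∈ V.ker := hv
    rwa [hker, Submodule.mem_bot] at this
  have hVV : star V * V = 1 := by
    ext v
    have := iV ((star V * V) v - v) (by
      rw [map_sub, ← mul_apply_eq_comp, hp.VE, sub_self])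
    exact sub_eq_zero.mp this
  have iP : ∀ v, P v = 0 → v = 0 := fun v hv => by
    have : v ∈ T.ker := by
      change T v = 0
      rw [hTV, mul_apply_eq_comp, hv, map_zero]
    rwa [hT, Submodule.mem_bot] at this
  have iB := inj_th hVV h1 iP
  have iC := inj_th hVV h2 iB
  have hS : aluthge T = sqrt P * V * sqrt P := by rw [hP, hV]; rfl
  have hM : mean T = (1 / 2 : ℂ) • (V * P + P * V) := by rw [← hTV, hP, hV]; rfl
  have hcm : Commute (V * P) (P * V) ↔ Commute T (mean T) := by
    rw [← hTV]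
    refine ⟨fun hc => ?_, fun hc => ?_⟩
    · rw [hM, ← hTV]
      exact ((Commute.refl T).add_right hc).smul_right _
    · have h2 : P * V = (2 : ℂ) • mean T - T := by
        rw [hM, ← hTV, smul_smul]; norm_num
      rw [h2]
      exact (hc.smul_right _).sub_right (Commute.refl T)
  rw [← hcm]
  have fin : Commute P (star V * P * V) →
      (mean (aluthge T) = aluthge (mean T) ↔ Commute (V * P) (P * V)) := fun hc =>
    main hp (binormal_of_comm hVV hp.sP h1 hc) hS hM hW.pol hW.1 hZ.pol hZ.1
  constructor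
  · intro heq
    obtain ⟨a, b, c, g, h', R, s, L⟩ := loc_eq hp hVV h1 h2 hS hM hW.1 hZ.pol hZ.1 heq
    exact (fin (blk_comm L iP iB iC hd)).mp heq
  · intro hc
    exact (fin (comm_of_comm_mean hVV hp.pos h1 hc)).mpr hc

end Pool.Agent.Lib.MP_15115f_an
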