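import Pool.Agent.Lib.MP_15115f_an.Mult

namespace Pool.Agent.Lib.MP_15115f_an

open CFC

set_option linter.unusedSectionVars false

variable {A : Type*} [CStarAlgebra A] [PartialOrder A] [StarOrderedRing A]

lemma Pol.rcancel {V P : A} (h : Pol V P) {D : A} (hD : D * P = 0) : D * (star V * V) = 0 := by
  have e1 : P * star D = 0 := by
    have := congrArg star hD
    simpa [star_mul, h.sP] using this
  have e2 : star V * V * star D = 0 := by rw [mul_assoc, h.ker2 _ e1, mul_zero]
  have := congrArg star e2
  simpa [star_mul] using this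

lemma Pol.lcancel {V P : A} (h : Pol V P) {D : A} (hD : P * D = 0) : star V * V * D = 0 := by
  rw [mul_assoc, h.ker2 _ hD, mul_zero]

/-- A quasi-normal element commutes with its polar factors. -/
lemma Pol.comm_of_quasi {W R : A} (h : Pol W R) (hc : Commute (W * R) R) : R * W = W * R := by
  have e1 : (W * R - R * W) * R = 0 := by
    rw [sub_mul, hc.eq, mul_assoc, sub_self]
  have e2 := h.rcancel e1
  rw [sub_mul, mul_assoc, h.PE, mul_assoc, h.VE, sub_eq_zero] at e2
  exact e2.symm

theorem comp_main {V P W Z : A} (h : Pol V P) (hc : Commute P (star V * V * (V * P)))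
    {S M : A} (hS : S = sqrt P * V * sqrt P) (hM : M = (1 / 2 : ℂ) • (V * P + P * V))
    (hW : Pol W (CFC.abs S)) (hWS : S = W * CFC.abs S)
    (hZM : M = Z * CFC.abs M) :
    (1 / 2 : ℂ) • (S + CFC.abs S * W) = sqrt (CFC.abs M) * Z * sqrt (CFC.abs M) ↔
      Commute (star V * V * (V * P)) (star (star V * V * (V * P)) * (star V * V * (V * P))) := by
  set x := sqrt P with hxdef
  set E := star V * V with hE
  set C := E * V with hC
  have hP := h.pos
  have sP := h.sP
  have hx : 0 ≤ x := sqrt_nonneg P
  have hxx : x * x = P := sqrt_mul_sqrt_self P hP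
  have sx : star x = x := hx.isSelfAdjoint.star_eq
  have sE : star E = E := by simp [hE, star_mul]
  have VE : V * E = V := h.VE
  have PE : P * E = P := h.PE
  have EP : E * P = P := h.EP
  have EE : E * E = E := by rw [hE, mul_assoc, h.VE]
  have xE : x * E = x := Pol.mulE_of_sq hx (by rw [hxx]; exact PE)
  have CE : C * E = C := by rw [hC, mul_assoc, VE]
  have EC : E * C = C := by rw [hC, ← mul_assoc, EE]
  have eCP : E * (V * P) = C * P := (mul_assoc E V P).symm
  rw [eCP] at hc ⊢
  clear_value C E
  have cPC : Commute P C := by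
    have e1 : (P * C - C * P) * P = 0 := by rw [sub_mul, mul_assoc, hc.eq, sub_self]
    have e2 := h.rcancel e1
    rw [← hE, sub_mul, mul_assoc, CE, mul_assoc, PE, sub_eq_zero] at e2
    exact e2
  have cPC' : Commute P (star C) := by
    have := congrArg star cPC.eq
    simp only [star_mul, sP] at this
    exact this.symm
  have cxC : Commute x C := comm_sqrt cPC
  have xV : x * V = x * C := by rw [hC, ← mul_assoc, xE]
  have PV : P * V = C * P := by rw [← cPC.eq, hC, ← mul_assoc, PE]
  set Q := CFC.abs C with hQdef
  have hQ : 0 ≤ Q := CFC.abs_nonneg C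
  have sQ : star Q = Q := hQ.isSelfAdjoint.star_eq
  have QQ : Q * Q = star C * C := abs_mul_abs C
  have cQP : Commute Q P := comm_of_sq hQ (by rw [QQ]; exact (cPC'.mul_right cPC).symm)
  have QE : Q * E = Q := by
    rw [hE]; exact Pol.mulE_of_sq hQ (by rw [QQ, mul_assoc, ← hE, CE])
  have EQ : E * Q = Q := by simpa [star_mul, sQ, sE] using congrArg star QE
  have V'C : star V * C = Q * Q := by
    rw [QQ]
    calc star V * C = star V * (E * C) := by rw [EC]
      _ = star (E * V) * C := by rw [star_mul, sE, mul_assoc]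
      _ = star C * C := by rw [← hC]
  have C'V : star C * V = Q * Q := by
    have := congrArg star V'C
    simpa [star_mul, sQ] using this
  have hE1 : E ≤ 1 := by
    have : 1 - E = star (1 - E) * (1 - E) := by
      rw [star_sub, star_one, sE, sub_mul, mul_sub, mul_sub, EE]; simp
    rw [← sub_nonneg, this]; exact star_mul_self_nonneg _
  have hQ1 : Q ≤ 1 := by
    have h1 : Q * Q ≤ 1 := by
      rw [← V'C, hC, ← mul_assoc]
      exact (star_left_conjugate_le_conjugate hE1 V).trans (by rw [mul_one, ← hE]; exact hE1)
    have h2 := CFC.sqrt_le_sqrt _ _ h1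
    rwa [CFC.sqrt_mul_self Q hQ, CFC.sqrt_one] at h2
  -- the fourth root
  have hQQ : 0 ≤ Q * Q := by rw [QQ]; exact star_mul_self_nonneg C
  have three : (3 : ℂ) • (Q * Q) = Q * Q + Q * Q + Q * Q := by
    rw [show (3 : ℂ) = 1 + 1 + 1 by norm_num, add_smul, add_smul, one_smul]
  set N : A := 1 + (3 : ℂ) • (Q * Q) with hN
  have hNp : IsStrictlyPositive N := by
    refine IsStrictlyPositive.add_nonneg ⟨zero_le_one, isUnit_one⟩ ?_
    rw [three]; exact add_nonneg (add_nonneg hQQ hQQ) hQQ
  set k := sqrt N with hkdef
  have hk : 0 ≤ k := sqrt_nonneg N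
  have kk : k * k = N := sqrt_mul_sqrt_self N hNp.nonneg
  set g := sqrt k with hgdef
  have hg : 0 ≤ g := sqrt_nonneg k
  have gg : g * g = k := sqrt_mul_sqrt_self k hk
  have cg : ∀ y : A, Commute Q y → Commute g y := fun y hy =>
    comm_sqrt (comm_sqrt ((Commute.one_left y).add_left ((hy.mul_left hy).smul_left _)))
  have ugu : IsUnit g := by
    have h1 : IsUnit (g * (g * g * g)) := by
      have : g * (g * g * g) = N := by rw [← kk, ← gg]; noncomm_ring
      rw [this]; exact hNp.isUnit
    exact ((Commute.refl g).mul_right (Commute.refl g)).mul_right (Commute.refl g)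
      |>.isUnit_mul_iff.mp h1 |>.1
  obtain ⟨u, hu⟩ := ugu
  set j : A := ↑u⁻¹ with hj
  have gj : g * j = 1 := by rw [← hu]; exact u.mul_inv
  have jg : j * g = 1 := by rw [← hu]; exact u.inv_mul
  have cj : ∀ y : A, Commute g y → Commute j y := fun y hy => by
    rw [← hu] at hy; exact hy.units_inv_left
  have cgP : Commute g P := cg P cQP
  have cgQ : Commute g Q := cg Q (Commute.refl Q)
  have cgE : Commute g E := cg E (by rw [Commute, SemiconjBy, QE, EQ])
  have cxg : Commute x g := comm_sqrt cgP.symm
  have ckP : Commute k P := by rw [← gg]; exact cgP.mul_left cgP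
  -- the Aluthge transform
  have hSC : S = C * P := by rw [hS, xV, cxC.eq, mul_assoc, hxx]
  have hQP : 0 ≤ Q * P := Commute.mul_nonneg hQ hP cQP
  have sCP : star (C * P) * (C * P) = Q * P * (Q * P) := by
    rw [star_mul, sP]
    calc P * star C * (C * P) = P * (Q * Q) * P := by rw [QQ]; noncomm_ring
      _ = (P * Q) * (Q * P) := by noncomm_ring
      _ = _ := by rw [← cQP.eq]
  have absS : CFC.abs S = Q * P := by
    apply sq_inj (CFC.abs_nonneg _) hQP
    rw [abs_mul_abs, hSC, sCP]
  -- the mean transform
  have hMV : M = (1 / 2 : ℂ) • ((V + C) * P) := by rw [hM, PV, add_mul]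
  have hPk : 0 ≤ (1 / 2 : ℂ) • (P * k) := half_smul_nonneg (Commute.mul_nonneg hP hk ckP.symm)
  have absM : CFC.abs M = (1 / 2 : ℂ) • (P * k) := by
    apply sq_inj (CFC.abs_nonneg _) hPk
    rw [abs_mul_abs, hMV, star_smul, smul_mul_smul_comm, smul_mul_smul_comm]
    have : star (1 / 2 : ℂ) = 1 / 2 := by simp
    rw [this]
    congr 1
    rw [star_mul, star_add, sP]
    calc P * (star V + star C) * ((V + C) * P)
        = P * (star V * V + star V * C + star C * V + star C * C) * P := by noncomm_ring
      _ = P * E * P + P * (Q * Q + Q * Q + Q * Q) * P := by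
          rw [V'C, C'V, ← QQ, ← hE]; noncomm_ring
      _ = P * (k * k) * P := by rw [PE, kk, hN, three]; noncomm_ring
      _ = P * k * (k * P) := by noncomm_ring
      _ = _ := by rw [ckP.eq]
  set y : A := ((√2)⁻¹ : ℝ) • (x * g) with hy
  have hy0 : 0 ≤ y := smul_nonneg (by positivity) (Commute.mul_nonneg hx hg cxg)
  have half : ∀ w : A, y * w * y = (1 / 2 : ℂ) • (x * g * w * (x * g)) := by
    intro w
    rw [hy, smul_mul_assoc, smul_mul_assoc, mul_smul_comm, smul_smul, ← mul_inv,
      Real.mul_self_sqrt (by norm_num), ← Complex.coe_smul]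
    norm_num
  have sqM : sqrt (CFC.abs M) = y := by
    have : y * y = CFC.abs M := by
      have := half 1
      rw [mul_one, mul_one] at this
      rw [this, absM]
      congr 1
      calc x * g * (x * g) = x * (g * x) * g := by noncomm_ring
        _ = (x * x) * (g * g) := by rw [← cxg.eq]; noncomm_ring
        _ = _ := by rw [hxx, gg]
    rw [← this, CFC.sqrt_mul_self y hy0]
  have Zx : Z * g * g * x = (V + C) * x := by
    have e1 : Z * (P * k) = (V + C) * P := by
      rw [absM, hMV, mul_smul_comm] at hZM
      have := congrArg (fun w => (2 : ℂ) • w) hZM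
      simpa [smul_smul] using this.symm
    have e2 : (Z * g * g - (V + C)) * P = 0 := by
      rw [sub_mul, ← e1, ← ckP.eq, ← gg]; noncomm_ring
    have e3 := h.rcancel e2
    rw [← hE] at e3
    have Ex : E * x = x := by simpa [star_mul, sx, sE] using congrArg star xE
    have e4 : (Z * g * g - (V + C)) * x = 0 := by rw [← Ex, ← mul_assoc, e3, zero_mul]
    rwa [sub_mul, sub_eq_zero] at e4
  have rhs : y * Z * y = g * C * j * P := by
    rw [half]
    have cjx : Commute j x := cj x cxg.symm
    have : x * g * Z * (x * g) = (2 : ℂ) • (g * C * j * P) := by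
      calc x * g * Z * (x * g) = x * g * Z * (x * g) * (g * j) := by rw [gj, mul_one]
        _ = x * g * (Z * (x * (g * g))) * j := by noncomm_ring
        _ = g * x * (Z * g * g * x) * j := by
            rw [(cxg.mul_right cxg).eq, cxg.eq]; noncomm_ring
        _ = g * (x * V + x * C) * x * j := by rw [Zx]; noncomm_ring
        _ = g * (C * x + C * x) * (x * j) := by rw [xV, cxC.eq]; noncomm_ring
        _ = g * (C + C) * ((x * x) * j) := by noncomm_ring
        _ = g * (C + C) * (j * P) := by rw [hxx, (cj P cgP).eq]
        _ = _ := by rw [two_smul]; noncomm_ring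
    rw [this, smul_smul]; norm_num
  rw [sqM, rhs, absS, hSC, sCP]
  rw [absS] at hW hWS
  rw [hSC] at hWS
  have cancel : ∀ D : A, E * D = D → P * D = 0 → D = 0 := fun D h1 h2 => by
    rw [← h1, hE]; exact h.lcancel h2
  constructor
  · intro e
    have e1 := congrArg (fun w => (2 : ℂ) • (w * (Q * P) * g)) e
    simp only [smul_mul_assoc, smul_smul] at e1
    norm_num at e1
    set D := (C * Q + Q * C) * g - (2 : ℂ) • (g * C * Q) with hD
    have cPD : Commute P D :=
      (((cPC.mul_right cQP.symm).add_right (cQP.symm.mul_right cPC)).mul_right cgP.symm).sub_right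
        (((cgP.symm.mul_right cPC).mul_right cQP.symm).smul_right _)
    have cD : D * P * P = 0 := by
      have t1 : (C * P + Q * P * W) * (Q * P) * g = (C * Q + Q * C) * g * P * P := by
        calc (C * P + Q * P * W) * (Q * P) * g
            = C * (P * Q) * (P * g) + Q * P * (W * (Q * P)) * g := by noncomm_ring
          _ = C * (P * Q) * (P * g) + Q * (P * C) * (P * g) := by
              rw [← hWS]; noncomm_ring
          _ = C * Q * (P * g) * P + Q * C * (P * g) * P := by
              rw [cPC.eq, ← cQP.eq, ← cgP.eq]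
              simp only [← mul_assoc]
              rw [mul_assoc (C * Q) P g, mul_assoc (Q * C) P g, ← cgP.eq]
              simp only [← mul_assoc]
          _ = _ := by rw [← cgP.eq]; noncomm_ring
      have t2 : g * C * j * P * (Q * P) * g = g * C * Q * P * P := by
        have c1 : Commute g (P * (Q * P)) := cgP.mul_right (cgQ.mul_right cgP)
        calc g * C * j * P * (Q * P) * g = g * C * j * ((P * (Q * P)) * g) := by noncomm_ring
          _ = g * C * (j * g) * (P * Q) * P := by rw [← c1.eq]; noncomm_ring
          _ = _ := by rw [jg, ← cQP.eq]; noncomm_ring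
      rw [t1, t2] at e1
      rw [hD, sub_mul, sub_mul, e1, smul_mul_assoc, smul_mul_assoc, sub_self]
    have ED : E * D = D := by
      rw [hD, mul_sub, mul_smul_comm, ← mul_assoc E, mul_add, ← mul_assoc E, ← mul_assoc E, EC, EQ,
        ← mul_assoc E, ← mul_assoc E, ← cgE.eq, mul_assoc g E C, EC]
    have D0 : D = 0 := by
      apply cancel D ED
      apply cancel _ (by rw [← mul_assoc, EP])
      rw [cPD.eq, ← mul_assoc, cPD.eq, cD]
    have cQC : Commute Q C :=
      mult_inj hQ hQ1 hg cgQ.symm.eq
        (by rw [pow_two, ← hN, ← kk, ← gg]; noncomm_ring) (sub_eq_zero.mp D0)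
    have : Commute (C * P) (Q * P) :=
      (cQC.symm.mul_right cPC.symm).mul_left (cQP.symm.mul_right (Commute.refl P))
    exact this.mul_right this
  · intro e
    have c1 : Commute (Q * P) (C * P) := comm_of_sq hQP e.symm
    have c2 : Q * P * W = C * P := by
      rw [hW.comm_of_quasi (by rw [← hWS]; exact c1.symm), ← hWS]
    have cQC : Commute Q C := by
      set D := Q * C - C * Q with hD
      have cPD : Commute P D := (cQP.symm.mul_right cPC).sub_right (cPC.mul_right cQP.symm)
      have cD : D * P * P = 0 := by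
        have t1 : Q * P * (C * P) = Q * C * P * P := by
          calc Q * P * (C * P) = Q * (P * C) * P := by noncomm_ring
            _ = _ := by rw [cPC.eq]; noncomm_ring
        have t2 : C * P * (Q * P) = C * Q * P * P := by
          calc C * P * (Q * P) = C * (P * Q) * P := by noncomm_ring
            _ = _ := by rw [← cQP.eq]; noncomm_ring
        rw [hD, sub_mul, sub_mul, ← t1, ← t2, c1.eq, sub_self]
      have ED : E * D = D := by rw [hD, mul_sub, ← mul_assoc E, ← mul_assoc E, EC, EQ]
      have D0 : D = 0 := by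
        apply cancel D ED
        apply cancel _ (by rw [← mul_assoc, EP])
        rw [cPD.eq, ← mul_assoc, cPD.eq, cD]
      exact sub_eq_zero.mp D0
    rw [c2, (cg C cQC).eq, mul_assoc C, gj, mul_one, ← two_smul ℂ, smul_smul]
    norm_num

end Pool.Agent.Lib.MP_15115f_an
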