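import Pool.Agent.Lib.MP_15115f_an.Basic

namespace Pool.Agent.Lib.MP_15115f_an

open CFC

set_option linter.unusedSectionVars false

variable {A : Type*} [CStarAlgebra A] [PartialOrder A] [StarOrderedRing A]

/-- Abstract data of a polar decomposition `T = V * P`. -/
structure Pol (V P : A) : Prop where
  pos : 0 ≤ P
  piso : V * star V * V = V
  ker1 : ∀ X : A, V * X = 0 → P * X = 0
  ker2 : ∀ X : A, P * X = 0 → V * X = 0

namespace Pol

variable {V P : A} (h : Pol V P)
include h

lemma sP : star P = P := h.pos.isSelfAdjoint.star_eq

lemma piso' : star V * V * star V = star V := by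
  have := congrArg star h.piso
  simpa [star_mul, mul_assoc] using this

lemma VE : V * (star V * V) = V := by rw [← mul_assoc, h.piso]

lemma FV : V * star V * V = V := h.piso

lemma EV' : star V * V * star V = star V := h.piso'

lemma V'F : star V * (V * star V) = star V := by rw [← mul_assoc, h.piso']

lemma PE : P * (star V * V) = P := by
  have : P * (1 - star V * V) = 0 := h.ker1 _ (by rw [mul_sub, mul_one, h.VE, sub_self])
  rw [mul_sub, mul_one, sub_eq_zero] at this
  exact this.symm

lemma EP : star V * V * P = P := by
  have := congrArg star h.PE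
  simpa [star_mul, h.sP, mul_assoc] using this

omit h in
lemma mulE_of_sq {y : A} (hy : 0 ≤ y) (hE : y * y * (star V * V) = y * y) :
    y * (star V * V) = y := by
  have : y * (1 - star V * V) = 0 :=
    mul_eq_zero_of_sq hy (by rw [mul_sub, mul_one, hE, sub_self])
  rw [mul_sub, mul_one, sub_eq_zero] at this
  exact this.symm

omit h in
lemma Emul_of_mulE {y : A} (hy : star y = y) (hE : y * (star V * V) = y) :
    star V * V * y = y := by
  have := congrArg star hE
  simpa [star_mul, hy, mul_assoc] using this

lemma commE {y : A} (hy : star y = y) (hc : Commute y P) : Commute y (star V * V) := by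
  have h1 : P * (y * (1 - star V * V)) = 0 := by
    rw [← mul_assoc, ← hc.eq, mul_assoc, mul_sub, mul_one, h.PE, sub_self, mul_zero]
  have h2 : star V * V * (y * (1 - star V * V)) = 0 := by
    rw [mul_assoc, h.ker2 _ h1, mul_zero]
  have h3 : star V * V * y = star V * V * y * (star V * V) := by
    rw [← sub_eq_zero]; rw [← h2]; noncomm_ring
  have h4 := congrArg star h3
  simp only [star_mul, star_star, hy] at h4
  rw [Commute, SemiconjBy, h4, h3]
  simp only [mul_assoc]

lemma kerQ1 (X : A) (hX : V * P * star V * X = 0) : V * star V * X = 0 := by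
  have h1 : P * (star V * X) = 0 := by
    calc P * (star V * X) = star V * V * P * (star V * X) := by rw [h.EP]
      _ = star V * (V * P * star V * X) := by noncomm_ring
      _ = 0 := by rw [hX, mul_zero]
  rw [mul_assoc, h.ker2 _ h1]

lemma commF {y : A} (hy : star y = y) (hc : Commute y (V * P * star V)) :
    Commute y (V * star V) := by
  have h0 : V * P * star V * (1 - V * star V) = 0 := by
    rw [mul_sub, mul_one, mul_assoc (V * P), h.V'F, sub_self]
  have h1 : V * P * star V * (y * (1 - V * star V)) = 0 := by
    rw [← mul_assoc, ← hc.eq, mul_assoc, h0, mul_zero]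
  have h2 := h.kerQ1 _ h1
  have h3 : V * star V * y = V * star V * y * (V * star V) := by
    rw [← sub_eq_zero]; rw [← h2]; noncomm_ring
  have h4 := congrArg star h3
  simp only [star_mul, star_star, hy] at h4
  rw [Commute, SemiconjBy, h4, h3]
  simp only [mul_assoc]

lemma abs_star : CFC.abs (star (V * P)) = V * P * star V := by
  have hpos : 0 ≤ V * P * star V := star_right_conjugate_nonneg h.pos V
  apply sq_inj (CFC.abs_nonneg _) hpos
  rw [abs_mul_abs, star_star, star_mul, h.sP]
  calc V * P * (P * star V) = V * (P * (star V * V)) * (P * star V) := by rw [h.PE]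
    _ = _ := by noncomm_ring

lemma unique {W : A} (h1 : V * P = W * P) (h2 : ∀ X : A, V * P * X = 0 → W * X = 0) :
    V = W := by
  have e1 : P * star (V - W) = 0 := by
    have : (V - W) * P = 0 := by rw [sub_mul, h1, sub_self]
    have := congrArg star this
    simpa [star_mul, h.sP] using this
  have e2 : star V * V * star (V - W) = 0 := by rw [mul_assoc, h.ker2 _ e1, mul_zero]
  have e3 : (V - W) * (star V * V) = 0 := by
    have := congrArg star e2
    simpa [star_mul] using this
  have e4 : W * (1 - star V * V) = 0 := by
    apply h2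
    rw [mul_assoc, mul_sub, mul_one, h.PE, sub_self, mul_zero]
  rw [sub_mul, h.VE, sub_eq_zero] at e3
  rw [mul_sub, mul_one, sub_eq_zero] at e4
  rw [e3, ← e4]

end Pol

end Pool.Agent.Lib.MP_15115f_an
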