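import Mathlib

namespace Pool.Agent.Lib.MP_15115f_an

variable {H : Type*} [NormedAddCommGroup H] [InnerProductSpace ℂ H] [CompleteSpace H]

/-- `T = V |T|` is the polar decomposition: `V` is a partial isometry with `ker V = ker T`. -/
def IsPolar (T V : H →L[ℂ] H) : Prop :=
  T = V * CFC.abs T ∧ V * star V * V = V ∧ V.ker = T.ker

/-- The partial isometry of the polar decomposition of `T`. -/
noncomputable def polar (T : H →L[ℂ] H) : H →L[ℂ] H := Classical.epsilon (IsPolar T)

/-- The Aluthge transform. -/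
noncomputable def aluthge (T : H →L[ℂ] H) : H →L[ℂ] H :=
  CFC.sqrt (CFC.abs T) * polar T * CFC.sqrt (CFC.abs T)

/-- The mean transform. -/
noncomputable def mean (T : H →L[ℂ] H) : H →L[ℂ] H :=
  (1 / 2 : ℂ) • (T + CFC.abs T * polar T)

end Pool.Agent.Lib.MP_15115f_an
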