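import Pool.Agent.Lib.MP_15115f_an.Defs
import Pool.Agent.Lib.MP_15115f_an.Core

namespace Pool.Agent.Lib.MP_15115f_an

open scoped InnerProductSpace

variable {H : Type*} [NormedAddCommGroup H] [InnerProductSpace ℂ H] [CompleteSpace H]

lemma norm_abs_apply (T : H →L[ℂ] H) (y : H) : ‖CFC.abs T y‖ = ‖T y‖ := by
  have hs : star (CFC.abs T) = CFC.abs T := (CFC.abs_nonneg T).isSelfAdjoint.star_eq
  have h1 : ⟪CFC.abs T y, CFC.abs T y⟫_ℂ = ⟪T y, T y⟫_ℂ := by
    rw [← ContinuousLinearMap.adjoint_inner_right, ← ContinuousLinearMap.adjoint_inner_right T,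
      ← ContinuousLinearMap.star_eq_adjoint, ← ContinuousLinearMap.star_eq_adjoint, hs,
      ← mul_apply_eq_comp, ← mul_apply_eq_comp, CFC.abs_mul_abs]
  rw [@norm_eq_sqrt_re_inner ℂ, h1, ← @norm_eq_sqrt_re_inner ℂ]

theorem exists_polar (T : H →L[ℂ] H) : ∃ V, IsPolar T V := by
  set P := CFC.abs T with hP
  have hs : star P = P := (CFC.abs_nonneg T).isSelfAdjoint.star_eq
  set K : Submodule ℂ H := P.range.topologicalClosure with hK
  have hmem : ∀ y, P y ∈ K := fun y => Submodule.le_topologicalClosure _ ⟨y, rfl⟩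
  let e : H →ₗ[ℂ] K := LinearMap.codRestrict K (P : H →ₗ[ℂ] H) hmem
  have hd : DenseRange e := by
    rw [DenseRange, Subtype.dense_iff]
    intro z hz
    have : (z : H) ∈ closure (P.range : Set H) := hz
    refine closure_mono ?_ this
    rintro _ ⟨y, rfl⟩
    exact ⟨e y, ⟨y, rfl⟩, rfl⟩
  have hn : ∀ y, ‖(T : H →ₗ[ℂ] H) y‖ = ‖e y‖ := fun y => (norm_abs_apply T y).symm
  let V0 : K →L[ℂ] H := (T : H →ₗ[ℂ] H).extendOfNorm e
  have hV0 : ∀ y, V0 (e y) = T y := fun y =>
    LinearMap.extendOfNorm_eq hd ⟨1, fun x => by rw [hn, one_mul]⟩ y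
  have hiso : ∀ z, ‖V0 z‖ = ‖z‖ := by
    intro z
    refine hd.induction_on z (isClosed_eq (by fun_prop) (by fun_prop)) ?_
    intro y
    rw [hV0]; exact hn y
  let L : K →ₗᵢ[ℂ] H := ⟨V0, hiso⟩
  let V : H →L[ℂ] H := V0.comp K.orthogonalProjectionOnto
  have hVV : star V * V = K.starProjection := by
    ext y
    apply ext_inner_left ℂ
    intro z
    rw [mul_apply_eq_comp, ContinuousLinearMap.star_eq_adjoint,
      ContinuousLinearMap.adjoint_inner_right]
    change ⟪L (K.orthogonalProjectionOnto z), L (K.orthogonalProjectionOnto y)⟫_ℂ = _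
    rw [L.inner_map_map, Submodule.inner_orthogonalProjectionOnto_eq_of_mem_right]
    rfl
  refine ⟨V, ?_, ?_, ?_⟩
  · ext y
    change T y = V0 (K.orthogonalProjectionOnto (e y))
    rw [Submodule.orthogonalProjectionOnto_mem_subspace_eq_self, hV0]
  · rw [mul_assoc, hVV]
    ext y
    change V0 (K.orthogonalProjectionOnto (K.orthogonalProjectionOnto y)) = V0 (K.orthogonalProjectionOnto y)
    rw [Submodule.orthogonalProjectionOnto_mem_subspace_eq_self]
  · ext y
    have h1 : V y = 0 ↔ K.orthogonalProjectionOnto y = 0 := by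
      change V0 _ = 0 ↔ _
      rw [← norm_eq_zero, hiso, norm_eq_zero]
      rfl
    have h2 : T y = 0 ↔ P y = 0 := by
      rw [← norm_eq_zero, ← norm_abs_apply, norm_eq_zero]
    change V y = 0 ↔ T y = 0
    rw [h1, h2, Submodule.orthogonalProjectionOnto_eq_zero_iff, hK,
      Submodule.orthogonal_closure, ContinuousLinearMap.orthogonal_range,
      ← ContinuousLinearMap.star_eq_adjoint, hs]
    rfl

lemma isPolar_polar (T : H →L[ℂ] H) : IsPolar T (polar T) :=
  Classical.epsilon_spec (exists_polar T)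

lemma IsPolar.pol {T V : H →L[ℂ] H} (h : IsPolar T V) : Pol V (CFC.abs T) := by
  have h2 : ∀ y, V y = 0 ↔ CFC.abs T y = 0 := by
    intro y
    rw [← norm_eq_zero (a := CFC.abs T y), norm_abs_apply, norm_eq_zero]
    exact SetLike.ext_iff.mp h.2.2 y
  refine ⟨CFC.abs_nonneg T, h.2.1, fun X hX => ?_, fun X hX => ?_⟩
  · ext y
    exact (h2 _).mp (DFunLike.congr_fun hX y)
  · ext y
    exact (h2 _).mpr (DFunLike.congr_fun hX y)

end Pool.Agent.Lib.MP_15115f_an
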