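import Pool.Agent.Lib.MP_15115f_an.Main

namespace Pool.Agent.Lib.MP_15115f_an

open CFC

set_option linter.unusedSectionVars false

variable {A : Type*} [CStarAlgebra A] [PartialOrder A] [StarOrderedRing A]

lemma sqrt_mem {S : StarSubalgebra ℂ A} (hS : IsClosed (S : Set A)) {y : A} (hy0 : 0 ≤ y)
    (hy : y ∈ S) : sqrt y ∈ S := by
  rw [CFC.sqrt_eq_real_sqrt y hy0]
  exact cfcₙ_mem (𝕜' := ℂ) _ hy

lemma inv_mem {S : StarSubalgebra ℂ A} (hS : IsClosed (S : Set A)) {y z : A} (hy : y ∈ S)
    (h1 : y * z = 1) (h2 : z * y = 1) : z ∈ S := by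
  have hu : IsUnit (⟨y, hy⟩ : S) := by
    rw [← StarSubalgebra.coe_isUnit]
    exact ⟨⟨y, z, h1, h2⟩, rfl⟩
  obtain ⟨w, hw⟩ := hu.exists_left_inv
  have hw' : (w : A) * y = 1 := congrArg Subtype.val hw
  have : z = w := by
    calc z = (w : A) * y * z := by rw [hw', one_mul]
      _ = w := by rw [mul_assoc, h1, mul_one]
  rw [this]; exact w.2

lemma exists_inv {y : A} (h : IsUnit y) : ∃ z, y * z = 1 ∧ z * y = 1 :=
  ⟨Ring.inverse y, Ring.mul_inverse_cancel _ h, Ring.inverse_mul_cancel _ h⟩

lemma star_inv {y z : A} (hy : star y = y) (h1 : y * z = 1) : star z = z := by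
  have h3 : star z * y = 1 := by
    have := congrArg star h1
    rwa [star_mul, hy, star_one] at this
  calc star z = star z * (y * z) := by rw [h1, mul_one]
    _ = z := by rw [← mul_assoc, h3, one_mul]

lemma parallel {x y P Q Pi Qi K : A} (sP : star P = P) (sQ : star Q = Q) (sK : star K = K)
    (hPi : 0 ≤ Pi) (hQi : 0 ≤ Qi)
    (p1 : P * Pi = 1) (p2 : Pi * P = 1) (q1 : Q * Qi = 1) (q2 : Qi * Q = 1)
    (k1 : (P + Q) * K = 1) :
    (x + y) * K * star (x + y) ≤ x * Pi * star x + y * Qi * star y := by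
  set s := x + y with hs
  have h1 := star_right_conjugate_nonneg hPi (x - s * K * P)
  have h2 := star_right_conjugate_nonneg hQi (y - s * K * Q)
  have e1 : (x - s * K * P) * Pi * star (x - s * K * P)
      = x * Pi * star x - s * K * star x - x * K * star s + s * K * (P * K) * star s := by
    simp only [star_sub, star_mul, sP, sK]
    calc (x - s * K * P) * Pi * (star x - P * (K * star s))
        = x * Pi * star x - s * K * (P * Pi) * star x - x * (Pi * P) * K * star s
          + s * K * (P * Pi) * (P * K) * star s := by noncomm_ring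
      _ = _ := by rw [p1, p2]; noncomm_ring
  have e2 : (y - s * K * Q) * Qi * star (y - s * K * Q)
      = y * Qi * star y - s * K * star y - y * K * star s + s * K * (Q * K) * star s := by
    simp only [star_sub, star_mul, sQ, sK]
    calc (y - s * K * Q) * Qi * (star y - Q * (K * star s))
        = y * Qi * star y - s * K * (Q * Qi) * star y - y * (Qi * Q) * K * star s
          + s * K * (Q * Qi) * (Q * K) * star s := by noncomm_ring
      _ = _ := by rw [q1, q2]; noncomm_ring
  have h3 := add_nonneg h1 h2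
  rw [e1, e2] at h3
  rw [← sub_nonneg]
  convert h3 using 1
  have e3 : s * K * (P * K) * star s + s * K * (Q * K) * star s = s * K * star s := by
    calc _ = s * K * ((P + Q) * K) * star s := by noncomm_ring
      _ = _ := by rw [k1, mul_one]
  have e4 : s * K * star x + s * K * star y = s * K * star s := by
    rw [← mul_add, ← star_add]
  have e5 : x * K * star s + y * K * star s = s * K * star s := by
    rw [← add_mul, ← add_mul]
  calc x * Pi * star x + y * Qi * star y - s * K * star s
      = x * Pi * star x + y * Qi * star y - (s * K * star x + s * K * star y)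
        - (x * K * star s + y * K * star s)
        + (s * K * (P * K) * star s + s * K * (Q * K) * star s) := by rw [e3, e4, e5]; abel
    _ = _ := by abel

/-- Separating family of traces on `S`, in ambient form. -/
def Tracial (S : StarSubalgebra ℂ A) : Prop :=
  ∀ x ∈ S, (∀ τ : A →ₗ[ℂ] ℂ, (∀ y ∈ S, ∀ z ∈ S, τ (y * z) = τ (z * y)) →
    (∀ y ∈ S, 0 ≤ (τ (star y * y)).re) → (τ (star x * x)).re ≤ 0) → x = 0

theorem binormal_of_trace {S : StarSubalgebra ℂ A} (hS : IsClosed (S : Set A)) (htr : Tracial S)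
    {U P W g : A} (hU1 : star U * U = 1) (hU2 : U * star U = 1) (hP : 0 ≤ P) (hPu : IsUnit P)
    (hUS : U ∈ S) (hPS : P ∈ S)
    {R : A} (hR : R = CFC.abs (sqrt P * U * sqrt P)) (hW : sqrt P * U * sqrt P = W * R)
    (hg : 0 ≤ g) (hgg : g * g = P + star U * P * U)
    (heq : sqrt P * U * sqrt P + R * W = g * U * g) :
    Commute P (star U * P * U) := by
  set a := sqrt P with ha
  have ha0 : 0 ≤ a := sqrt_nonneg P
  have haa : a * a = P := sqrt_mul_sqrt_self P hP
  have haS : a ∈ S := sqrt_mem hS hP hPS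
  clear_value a
  have sa : star a = a := ha0.isSelfAdjoint.star_eq
  have sP : star P = P := hP.isSelfAdjoint.star_eq
  have sg : star g = g := hg.isSelfAdjoint.star_eq
  have hau : IsUnit a := by
    rw [← haa] at hPu
    exact isUnit_mul_self_iff.mp hPu
  obtain ⟨ai, a1, a2⟩ := exists_inv hau
  have sai : star ai = ai := star_inv sa a1
  have haiS : ai ∈ S := inv_mem hS haS a1 a2
  obtain ⟨Q, hQ⟩ : ∃ Q, Q = star U * P * U := ⟨_, rfl⟩
  obtain ⟨q, hq⟩ : ∃ q, q = star U * a * U := ⟨_, rfl⟩
  obtain ⟨qi, hqi⟩ : ∃ qi, qi = star U * ai * U := ⟨_, rfl⟩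
  rw [← hQ] at hgg ⊢
  have conj : ∀ y z : A, (star U * y * U) * (star U * z * U) = star U * (y * z) * U := by
    intro y z
    calc _ = star U * y * (U * star U) * z * U := by noncomm_ring
      _ = _ := by rw [hU2]; noncomm_ring
  have hqq : q * q = Q := by rw [hq, conj, haa, hQ]
  have q1 : q * qi = 1 := by rw [hq, hqi, conj, a1, mul_one, hU1]
  have q2 : qi * q = 1 := by rw [hq, hqi, conj, a2, mul_one, hU1]
  have hq0 : 0 ≤ q := hq ▸ star_left_conjugate_nonneg ha0 U
  have hQ0 : 0 ≤ Q := hQ ▸ star_left_conjugate_nonneg hP U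
  have sq : star q = q := hq0.isSelfAdjoint.star_eq
  have sQ : star Q = Q := hQ0.isSelfAdjoint.star_eq
  have sqi : star qi = qi := star_inv sq q1
  have hU'S : star U ∈ S := star_mem hUS
  have hqS : q ∈ S := hq ▸ mul_mem (mul_mem hU'S haS) hUS
  have hqiS : qi ∈ S := hqi ▸ mul_mem (mul_mem hU'S haiS) hUS
  have hQS : Q ∈ S := hqq ▸ mul_mem hqS hqS
  -- the modulus of the Aluthge transform
  have hR0 : 0 ≤ R := hR ▸ CFC.abs_nonneg _
  have sR : star R = R := hR0.isSelfAdjoint.star_eq
  have hRR : R * R = a * Q * a := by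
    rw [hR, abs_mul_abs, star_mul, star_mul, sa, hQ, ← haa]; noncomm_ring
  have hRS : R ∈ S := by
    rw [← sqrt_mul_self R hR0, hRR]
    refine sqrt_mem hS ?_ (mul_mem (mul_mem haS hQS) haS)
    simpa [sa] using star_left_conjugate_nonneg hQ0 a
  have hQu : IsUnit Q := by
    rw [← hqq]
    have : IsUnit q := ⟨⟨q, qi, q1, q2⟩, rfl⟩
    exact this.mul this
  have hRu : IsUnit R := by
    apply isUnit_mul_self_iff.mp
    rw [hRR]; exact (hau.mul hQu).mul hau
  obtain ⟨Ri, r1, r2⟩ := exists_inv hRu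
  have sRi : star Ri = Ri := star_inv sR r1
  have hRiS : Ri ∈ S := inv_mem hS hRS r1 r2
  have hWe : W = a * U * a * Ri := by rw [hW, mul_assoc, r1, mul_one]
  have hWS : W ∈ S := hWe ▸ mul_mem (mul_mem (mul_mem haS hUS) haS) hRiS
  have hW1 : star W * W = 1 := by
    rw [hWe]
    simp only [star_mul, sRi, sa]
    calc Ri * (a * (star U * a)) * (a * U * a * Ri)
        = Ri * (a * (star U * (a * a) * U) * a) * Ri := by noncomm_ring
      _ = Ri * (R * R) * Ri := by rw [haa, ← hQ, hRR]
      _ = (Ri * R) * (R * Ri) := by noncomm_ring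
      _ = 1 := by rw [r1, r2, one_mul]
  have hRi2 : Ri * Ri = ai * (qi * qi) * ai := by
    have : ai * (qi * qi) * ai * (R * R) = 1 := by
      rw [hRR, ← hqq]
      calc ai * (qi * qi) * ai * (a * (q * q) * a)
          = ai * (qi * (qi * (ai * a) * q) * q) * a := by noncomm_ring
        _ = 1 := by rw [a2, mul_one, q2, mul_one, q2, mul_one, a2]
    calc Ri * Ri = ai * (qi * qi) * ai * (R * R) * (Ri * Ri) := by rw [this, one_mul]
      _ = ai * (qi * qi) * ai * (R * (R * Ri) * Ri) := by noncomm_ring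
      _ = _ := by rw [r1, mul_one, r1, mul_one]
  -- the inequality
  have hgu : IsUnit g := by
    apply isUnit_mul_self_iff.mp
    rw [hgg]
    exact (IsStrictlyPositive.add_nonneg ⟨hP, hPu⟩ hQ0).isUnit
  obtain ⟨gi, g1, g2⟩ := exists_inv hgu
  have sgi : star gi = gi := star_inv sg g1
  have hineq : Ri * Q * Ri ≤ W * (qi * qi) * star W := by
    have h1 := parallel (x := a * U * a) (y := R * W) (Pi := ai * ai) (Qi := qi * qi)
      (K := gi * gi) sP sQ (by rw [star_mul, sgi])
      (by simpa [sai] using star_mul_self_nonneg ai) (by simpa [sqi] using star_mul_self_nonneg qi)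
      (by rw [← haa, mul_assoc, ← mul_assoc a ai, a1, one_mul, a1])
      (by rw [← haa, mul_assoc, ← mul_assoc ai a, a2, one_mul, a2])
      (by rw [← hqq, mul_assoc, ← mul_assoc q qi, q1, one_mul, q1])
      (by rw [← hqq, mul_assoc, ← mul_assoc qi q, q2, one_mul, q2])
      (by rw [← hgg, mul_assoc, ← mul_assoc g gi, g1, one_mul, g1])
    have e1 : (a * U * a + R * W) * (gi * gi) * star (a * U * a + R * W) = P + Q := by
      rw [heq]
      simp only [star_mul, sg]
      calc g * U * g * (gi * gi) * (g * (star U * g))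
          = g * U * (g * gi) * (gi * g) * star U * g := by noncomm_ring
        _ = g * (U * star U) * g := by rw [g1, g2]; noncomm_ring
        _ = P + Q := by rw [hU2, mul_one, hgg]
    have e2 : a * U * a * (ai * ai) * star (a * U * a) = P := by
      simp only [star_mul, sa]
      calc a * U * a * (ai * ai) * (a * (star U * a))
          = a * U * (a * ai) * (ai * a) * star U * a := by noncomm_ring
        _ = a * (U * star U) * a := by rw [a1, a2]; noncomm_ring
        _ = P := by rw [hU2, mul_one, haa]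
    rw [e1, e2, add_le_add_iff_left] at h1
    have h2 := star_left_conjugate_le_conjugate h1 Ri
    rw [sRi] at h2
    refine h2.trans (le_of_eq ?_)
    rw [star_mul, sR]
    calc Ri * (R * W * (qi * qi) * (star W * R)) * Ri
        = (Ri * R) * W * (qi * qi) * star W * (R * Ri) := by noncomm_ring
      _ = _ := by rw [r1, r2, one_mul, mul_one]
  -- the trace argument
  obtain ⟨Z, hZ⟩ : ∃ Z, Z = q * ai * qi := ⟨_, rfl⟩
  have sZ : star Z = qi * ai * q := by
    rw [hZ]; simp only [star_mul, sq, sai, sqi, mul_assoc]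
  have hZS : Z ∈ S := hZ ▸ mul_mem (mul_mem hqS haiS) hqiS
  have hZ'S : star Z ∈ S := star_mem hZS
  have hsym : Z - star Z = 0 := by
    apply htr _ (sub_mem hZS hZ'S)
    intro τ ht hp
    have mono : ∀ y ∈ S, 0 ≤ y → 0 ≤ (τ y).re := by
      intro y hy hy0
      have := hp _ (sqrt_mem hS hy0 hy)
      rwa [(sqrt_nonneg y).isSelfAdjoint.star_eq, sqrt_mul_sqrt_self y hy0] at this
    have t1 : τ (Z * Z) = τ (ai * ai) := by
      have : Z * Z = q * (ai * ai * qi) := by
        rw [hZ]
        calc q * ai * qi * (q * ai * qi) = q * ai * (qi * q) * ai * qi := by noncomm_ring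
          _ = _ := by rw [q2]; noncomm_ring
      rw [this, ht _ hqS _ (mul_mem (mul_mem haiS haiS) hqiS), mul_assoc, q2, mul_one]
    have t2 : τ (star Z * star Z) = τ (ai * ai) := by
      have : star Z * star Z = qi * (ai * ai * q) := by
        rw [sZ]
        calc qi * ai * q * (qi * ai * q) = qi * ai * (q * qi) * ai * q := by noncomm_ring
          _ = _ := by rw [q1]; noncomm_ring
      rw [this, ht _ hqiS _ (mul_mem (mul_mem haiS haiS) hqS), mul_assoc, q1, mul_one]
    have t3 : τ (Z * star Z) = τ (Ri * Q * Ri) := by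
      have e1 : Z * star Z = q * (Ri * Ri * q) := by
        rw [sZ, hRi2, hZ]; noncomm_ring
      rw [e1, ht _ hqS _ (mul_mem (mul_mem hRiS hRiS) hqS), mul_assoc, hqq, mul_assoc,
        ht _ hRiS _ (mul_mem hRiS hQS)]
    have t4 : τ (star Z * Z) = τ (Ri * Q * Ri) := by rw [ht _ hZ'S _ hZS, t3]
    have t5 : τ (W * (qi * qi) * star W) = τ (ai * ai) := by
      rw [ht _ (mul_mem hWS (mul_mem hqiS hqiS)) _ (star_mem hWS), ← mul_assoc, hW1, one_mul,
        hqi, conj, mul_assoc, ht _ hU'S _ (mul_mem (mul_mem haiS haiS) hUS), mul_assoc, hU2,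
        mul_one]
    have t6 : 0 ≤ (τ (ai * ai) - τ (Ri * Q * Ri)).re := by
      rw [← t5, ← map_sub]
      exact mono _ (sub_mem (mul_mem (mul_mem hWS (mul_mem hqiS hqiS)) (star_mem hWS))
        (mul_mem (mul_mem hRiS hQS) hRiS)) (sub_nonneg.mpr hineq)
    have t7 : τ (star (Z - star Z) * (Z - star Z))
        = -(τ (ai * ai) - τ (Ri * Q * Ri)) + -(τ (ai * ai) - τ (Ri * Q * Ri)) := by
      have : star (Z - star Z) * (Z - star Z)
          = star Z * Z + Z * star Z - Z * Z - star Z * star Z := by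
        rw [star_sub, star_star]; noncomm_ring
      rw [this, map_sub, map_sub, map_add, t1, t2, t3, t4]; ring
    rw [t7, Complex.add_re, Complex.neg_re]
    linarith
  rw [sub_eq_zero, sZ, hZ] at hsym
  have c1 : Q * ai = ai * Q := by
    calc Q * ai = q * (q * ai * qi) * q := by
          rw [← hqq]
          calc q * q * ai = q * q * ai * (qi * q) := by rw [q2, mul_one]
            _ = _ := by noncomm_ring
      _ = (q * qi) * ai * (q * q) := by rw [hsym]; noncomm_ring
      _ = ai * Q := by rw [q1, one_mul, hqq]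
  have c2 : Commute a Q := by
    calc a * Q = a * (Q * ai) * a := by rw [mul_assoc, mul_assoc, a2, mul_one]
      _ = Q * a := by rw [c1, ← mul_assoc, a1, one_mul]
  rw [← haa]
  exact c2.mul_left c2

lemma eq_of_trace {S : StarSubalgebra ℂ A} (htr : Tracial S)
    {U P : A} (hU1 : star U * U = 1) (hU2 : U * star U = 1) (hP : 0 ≤ P)
    (hUS : U ∈ S) (hPS : P ∈ S) (hc : Commute (U * P) (P * U)) : Commute U P := by
  have sP : star P = P := hP.isSelfAdjoint.star_eq
  have hU'S : star U ∈ S := star_mem hUS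
  obtain ⟨Q, hQ⟩ : ∃ Q, Q = star U * P * U := ⟨_, rfl⟩
  obtain ⟨Q1, hQ1⟩ : ∃ Q1, Q1 = U * P * star U := ⟨_, rfl⟩
  have hQ0 : 0 ≤ Q := hQ ▸ star_left_conjugate_nonneg hP U
  have hQ10 : 0 ≤ Q1 := hQ1 ▸ star_right_conjugate_nonneg hP U
  have sQ : star Q = Q := hQ0.isSelfAdjoint.star_eq
  have sQ1 : star Q1 = Q1 := hQ10.isSelfAdjoint.star_eq
  have hQS : Q ∈ S := hQ ▸ mul_mem (mul_mem hU'S hPS) hUS
  have hQ1S : Q1 ∈ S := hQ1 ▸ mul_mem (mul_mem hUS hPS) hU'S
  have e : Q * Q1 = P * P := by
    calc Q * Q1 = star U * (P * U * (U * P)) * star U := by rw [hQ, hQ1]; noncomm_ring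
      _ = (star U * U) * P * P * (U * star U) := by rw [← hc.eq]; noncomm_ring
      _ = P * P := by rw [hU1, hU2, one_mul, mul_one]
  have hQQ : Q - Q1 = 0 := by
    apply htr _ (sub_mem hQS hQ1S)
    intro τ ht _
    have t1 : τ (Q * Q) = τ (P * P) := by
      have : Q * Q = star U * (P * P * U) := by
        calc Q * Q = star U * P * (U * star U) * P * U := by rw [hQ]; noncomm_ring
          _ = _ := by rw [hU2]; noncomm_ring
      rw [this, ht _ hU'S _ (mul_mem (mul_mem hPS hPS) hUS), mul_assoc, hU2, mul_one]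
    have t2 : τ (Q1 * Q1) = τ (P * P) := by
      have : Q1 * Q1 = U * (P * P * star U) := by
        calc Q1 * Q1 = U * P * (star U * U) * P * star U := by rw [hQ1]; noncomm_ring
          _ = _ := by rw [hU1]; noncomm_ring
      rw [this, ht _ hUS _ (mul_mem (mul_mem hPS hPS) hU'S), mul_assoc, hU1, mul_one]
    have : star (Q - Q1) * (Q - Q1) = Q * Q + Q1 * Q1 - Q * Q1 - Q1 * Q := by
      rw [star_sub, sQ, sQ1]; noncomm_ring
    rw [this, map_sub, map_sub, map_add, t1, t2, ht _ hQ1S _ hQS, e]; simp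
  rw [sub_eq_zero] at hQQ
  have hQP : Q = P := sq_inj hQ0 hP (by rw [← e, ← hQQ])
  calc U * P = U * Q := by rw [hQP]
    _ = (U * star U) * P * U := by rw [hQ]; noncomm_ring
    _ = P * U := by rw [hU2, one_mul]

end Pool.Agent.Lib.MP_15115f_an
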