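import Pool.Agent.Lib.MP_15115f_an.Exists
import Pool.Agent.Lib.MP_15115f_an.Trace

namespace Pool.Agent.Lib.MP_15115f_an

open CFC

section abstract

variable {A : Type*} [CStarAlgebra A] [PartialOrder A] [StarOrderedRing A]

lemma Pol.unitary {V P : A} (h : Pol V P) (hT : IsUnit (V * P)) (hPu : IsUnit P) :
    star V * V = 1 ∧ V * star V = 1 := by
  have hV : IsUnit V := by
    obtain ⟨Pi, p1, _⟩ := exists_inv hPu
    have : V = V * P * Pi := by rw [mul_assoc, p1, mul_one]
    rw [this]
    exact hT.mul ⟨⟨Pi, P, by assumption, p1⟩, rfl⟩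
  obtain ⟨Vi, v1, v2⟩ := exists_inv hV
  constructor
  · calc star V * V = Vi * (V * star V * V) := by rw [mul_assoc V, ← mul_assoc Vi, v2, one_mul]
      _ = 1 := by rw [h.piso, v2]
  · calc V * star V = (V * star V * V) * Vi := by rw [mul_assoc _ V Vi, v1, mul_one]
      _ = 1 := by rw [h.piso, v1]

lemma isUnit_abs {T : A} (hT : IsUnit T) : IsUnit (CFC.abs T) := by
  apply isUnit_mul_self_iff.mp
  rw [abs_mul_abs]
  exact hT.star.mul hT

theorem inv_main {Sa : StarSubalgebra ℂ A} (hSa : IsClosed (Sa : Set A)) (htr : Tracial Sa)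
    {T V W Z : A} (hT : IsUnit T) (hTS : T ∈ Sa) (h : Pol V (CFC.abs T))
    (hTV : T = V * CFC.abs T)
    {S M : A} (hS : S = sqrt (CFC.abs T) * V * sqrt (CFC.abs T))
    (hM : M = (1 / 2 : ℂ) • (T + CFC.abs T * V))
    (hW : Pol W (CFC.abs S)) (hWS : S = W * CFC.abs S)
    (hZ : Pol Z (CFC.abs M)) (hZM : M = Z * CFC.abs M) :
    (1 / 2 : ℂ) • (S + CFC.abs S * W) = sqrt (CFC.abs M) * Z * sqrt (CFC.abs M) ↔
      IsStarNormal T := by
  have hPu := isUnit_abs hT
  have hPS : CFC.abs T ∈ Sa :=
    sqrt_mem hSa (star_mul_self_nonneg T) (mul_mem (star_mem hTS) hTS)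
  have habs : CFC.abs (star T) = V * CFC.abs T * star V := by
    rw [← h.abs_star, ← hTV]
  obtain ⟨P, hPdef⟩ : ∃ P, P = CFC.abs T := ⟨_, rfl⟩
  rw [← hPdef] at h hTV hS hM hPu hPS habs
  have hP := h.pos
  have sP := h.sP
  obtain ⟨hU1, hU2⟩ := h.unitary (hTV ▸ hT) hPu
  have hVS : V ∈ Sa := by
    obtain ⟨Pi, p1, p2⟩ := exists_inv hPu
    have : V = T * Pi := by rw [hTV, mul_assoc, p1, mul_one]
    rw [this]
    exact mul_mem hTS (inv_mem hSa hPS p1 p2)
  have hM' : M = (1 / 2 : ℂ) • (V * P + P * V) := by rw [hM, ← hTV]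
  constructor
  · intro heq
    have hQ0 : 0 ≤ star V * P * V := star_left_conjugate_nonneg hP V
    have hPQ0 : 0 ≤ P + star V * P * V := add_nonneg hP hQ0
    have hR0 : 0 ≤ (1 / 2 : ℂ) • (P + star V * P * V) := half_smul_nonneg hPQ0
    have hMV : M = V * ((1 / 2 : ℂ) • (P + star V * P * V)) := by
      rw [hM', mul_smul_comm, mul_add, ← mul_assoc, ← mul_assoc, hU2, one_mul]
    have absM : CFC.abs M = (1 / 2 : ℂ) • (P + star V * P * V) := by
      apply sq_inj (CFC.abs_nonneg _) hR0
      rw [abs_mul_abs, hMV, star_mul, hR0.isSelfAdjoint.star_eq, mul_assoc, ← mul_assoc (star V),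
        hU1, one_mul]
    have hZV : Z = V := by
      apply hZ.unique
      · rw [← hZM, absM, hMV]
      · intro X hX
        rw [← hZM, hMV] at hX
        have hu : IsUnit (P + star V * P * V) :=
          (IsStrictlyPositive.add_nonneg ⟨hP, hPu⟩ hQ0).isUnit
        rw [mul_smul_comm, smul_mul_assoc, smul_eq_zero] at hX
        have h2 := hX.resolve_left (by norm_num)
        have h3 : (P + star V * P * V) * X = 0 := by
          calc _ = star V * (V * (P + star V * P * V) * X) := by
                rw [← mul_assoc, ← mul_assoc, hU1, one_mul]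
            _ = 0 := by rw [h2, mul_zero]
        rw [hu.mul_right_eq_zero.mp h3, mul_zero]
    have heq0 := heq
    rw [absM, hZV] at heq
    set g0 := sqrt ((1 / 2 : ℂ) • (P + star V * P * V)) with hg0
    have hg00 : 0 ≤ g0 := sqrt_nonneg _
    have hg0sq : g0 * g0 = (1 / 2 : ℂ) • (P + star V * P * V) := sqrt_mul_sqrt_self _ hR0
    set g : A := (√2 : ℝ) • g0 with hg
    have hgpos : 0 ≤ g := smul_nonneg (Real.sqrt_nonneg 2) hg00
    have two : ∀ y : A, g * y * g = (2 : ℂ) • (g0 * y * g0) := by
      intro y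
      rw [hg, smul_mul_assoc, smul_mul_assoc, mul_smul_comm, smul_smul,
        Real.mul_self_sqrt (by norm_num), ← Complex.coe_smul]
      norm_num
    have hgg : g * g = P + star V * P * V := by
      have := two 1
      rw [mul_one, mul_one, hg0sq, smul_smul] at this
      rw [this]; norm_num
    have hc := binormal_of_trace hSa htr hU1 hU2 hP hPu hVS hPS (R := CFC.abs S) (W := W)
      (by rw [hS]) (by rw [← hS]; exact hWS) hgpos hgg
      (by rw [two, ← heq, smul_smul, ← hS]; norm_num)
    have hbi : Commute P (V * P * star V) := by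
      calc P * (V * P * star V) = (V * star V) * P * (V * P * star V) := by rw [hU2, one_mul]
        _ = V * (star V * P * V * P) * star V := by noncomm_ring
        _ = V * P * star V * P * (V * star V) := by rw [← hc.eq]; noncomm_ring
        _ = _ := by rw [hU2, mul_one]
    have hcm := (main h hbi hS hM' hW hWS hZ hZM).mp heq0
    have hUP := eq_of_trace htr hU1 hU2 hP hVS hPS hcm
    constructor
    rw [hTV, Commute, SemiconjBy, star_mul, sP]
    calc P * star V * (V * P) = P * (star V * V) * P := by noncomm_ring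
      _ = P * P * (V * star V) := by rw [hU1, hU2, mul_one, mul_one]
      _ = P * (P * V) * star V := by noncomm_ring
      _ = P * (V * P) * star V := by rw [hUP.eq]
      _ = (P * V) * P * star V := by noncomm_ring
      _ = (V * P) * P * star V := by rw [hUP.eq]
      _ = _ := by noncomm_ring
  · intro hn
    have e : V * P * star V = P := by rw [← habs, CFC.abs_star T hn, hPdef]
    have hUP : V * P = P * V := by
      calc V * P = V * P * star V * V := by rw [mul_assoc _ (star V), hU1, mul_one]
        _ = P * V := by rw [e]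
    apply (main h (by rw [e]) hS hM' hW hWS hZ hZM).mpr
    rw [hUP]

end abstract

end Pool.Agent.Lib.MP_15115f_an
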