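import Pool.Agent.Lib.MP_15115f_an.Trace

namespace Pool.Agent.Lib.MP_15115f_an

open CFC

set_option linter.unusedSectionVars false

variable {A : Type*} [CStarAlgebra A] [PartialOrder A] [StarOrderedRing A]

lemma mem_of_sq {S : StarSubalgebra ℂ A} (hS : IsClosed (S : Set A)) {y : A} (hy : 0 ≤ y)
    (h : y * y ∈ S) : y ∈ S := by
  rw [← sqrt_mul_self y hy]
  refine sqrt_mem hS ?_ h
  simpa [hy.isSelfAdjoint.star_eq] using star_mul_self_nonneg y

lemma sq_nonneg' {y : A} (hy : star y = y) : 0 ≤ y * y := by
  simpa [hy] using star_mul_self_nonneg y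

/-- A skew element anticommuting with an invertible positive element vanishes. -/
lemma anti_zero {a k : A} (ha : 0 ≤ a) (hau : IsUnit a) (hk : star k = -k)
    (h : k * a = -(a * k)) : k = 0 := by
  have h1 : 0 ≤ star k * a * k := star_left_conjugate_nonneg ha k
  have hc : Commute a (star k * k) := by
    rw [hk, Commute, SemiconjBy]
    calc a * (-k * k) = -(a * k) * k := by noncomm_ring
      _ = k * a * k := by rw [h]
      _ = k * (-(-(a * k))) := by noncomm_ring
      _ = k * (-(k * a)) := by rw [← h]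
      _ = -k * k * a := by noncomm_ring
  have h2 : 0 ≤ a * (star k * k) := hc.mul_nonneg ha (star_mul_self_nonneg k)
  have h3 : star k * a * k = -(a * (star k * k)) := by
    rw [hk]
    calc -k * a * k = -(k * a) * k := by noncomm_ring
      _ = a * k * k := by rw [h]; noncomm_ring
      _ = _ := by noncomm_ring
  have h4 : a * (star k * k) = 0 := le_antisymm (by rw [h3] at h1; exact neg_nonneg.mp h1) h2
  exact CStarRing.star_mul_self_eq_zero_iff _ |>.mp (hau.mul_right_eq_zero.mp h4)

/-- The local equation is rigid as soon as the three moduli lie in an algebra with traces. -/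
theorem loc_comm {S : StarSubalgebra ℂ A} (hS : IsClosed (S : Set A)) (htr : Tracial S)
    {a b c g h R s : A} (ha : 0 ≤ a) (hb : 0 ≤ b) (hc : 0 ≤ c) (hg : 0 ≤ g) (hh : 0 ≤ h)
    (hR : 0 ≤ R) (hs : 0 ≤ s) (hau : IsUnit a) (hbu : IsUnit b) (hcu : IsUnit c)
    (haS : a ∈ S) (hbS : b ∈ S) (hcS : c ∈ S)
    (hgg : g * g = a * a + b * b) (hhh : h * h = b * b + c * c)
    (hRR : R * R = a * (b * b) * a) (hss : s * s = b * (c * c) * b)
    (heq : h * g * R = b * a * R + s * (b * a)) : Commute a b := by
  have sa : star a = a := ha.isSelfAdjoint.star_eq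
  have sb : star b = b := hb.isSelfAdjoint.star_eq
  have sc : star c = c := hc.isSelfAdjoint.star_eq
  have sg : star g = g := hg.isSelfAdjoint.star_eq
  have sh : star h = h := hh.isSelfAdjoint.star_eq
  have sR : star R = R := hR.isSelfAdjoint.star_eq
  have ss : star s = s := hs.isSelfAdjoint.star_eq
  obtain ⟨ai, a1, a2⟩ := exists_inv hau
  obtain ⟨bi, b1, b2⟩ := exists_inv hbu
  obtain ⟨ci, c1, c2⟩ := exists_inv hcu
  have hRu : IsUnit R := by
    apply isUnit_mul_self_iff.mp
    rw [hRR]; exact (hau.mul (hbu.mul hbu)).mul hau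
  have hsu : IsUnit s := by
    apply isUnit_mul_self_iff.mp
    rw [hss]; exact (hbu.mul (hcu.mul hcu)).mul hbu
  have hgu : IsUnit g := by
    apply isUnit_mul_self_iff.mp
    rw [hgg]
    exact (IsStrictlyPositive.add_nonneg ⟨sq_nonneg' sa, hau.mul hau⟩ (sq_nonneg' sb)).isUnit
  obtain ⟨Ri, r1, r2⟩ := exists_inv hRu
  obtain ⟨si, s1, s2⟩ := exists_inv hsu
  obtain ⟨gi, g1, g2⟩ := exists_inv hgu
  have sai : star ai = ai := star_inv sa a1
  have sbi : star bi = bi := star_inv sb b1
  have sci : star ci = ci := star_inv sc c1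
  have sRi : star Ri = Ri := star_inv sR r1
  have ssi : star si = si := star_inv ss s1
  have sgi : star gi = gi := star_inv sg g1
  have hRS : R ∈ S := mem_of_sq hS hR (hRR ▸ mul_mem (mul_mem haS (mul_mem hbS hbS)) haS)
  have hsS : s ∈ S := mem_of_sq hS hs (hss ▸ mul_mem (mul_mem hbS (mul_mem hcS hcS)) hbS)
  have hbiS : bi ∈ S := inv_mem hS hbS b1 b2
  have hciS : ci ∈ S := inv_mem hS hcS c1 c2
  have hRiS : Ri ∈ S := inv_mem hS hRS r1 r2
  have hsiS : si ∈ S := inv_mem hS hsS s1 s2
  obtain ⟨W, hW⟩ : ∃ W, W = b * a * Ri := ⟨_, rfl⟩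
  have hWS : W ∈ S := hW ▸ mul_mem (mul_mem hbS haS) hRiS
  have sW : star W = Ri * a * b := by
    rw [hW]; simp only [star_mul, sRi, sa, sb, mul_assoc]
  have hW1 : star W * W = 1 := by
    rw [sW, hW]
    calc Ri * a * b * (b * a * Ri) = Ri * (a * (b * b) * a) * Ri := by noncomm_ring
      _ = (Ri * R) * (R * Ri) := by rw [← hRR]; noncomm_ring
      _ = 1 := by rw [r1, r2, one_mul]
  have hWu : IsUnit W := hW ▸ (hbu.mul hau).mul ⟨⟨Ri, R, r2, r1⟩, rfl⟩
  have hW2 : W * star W = 1 := by
    obtain ⟨Wi, w1, _⟩ := exists_inv hWu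
    have : star W = Wi := by
      calc star W = star W * (W * Wi) := by rw [w1, mul_one]
        _ = Wi := by rw [← mul_assoc, hW1, one_mul]
    rw [this, w1]
  have hWR : W * R = b * a := by rw [hW, mul_assoc, r2, mul_one]
  have heq' : b * a + s * W = h * g := by
    calc b * a + s * W = (b * a * R + s * (b * a)) * Ri := by
          rw [hW, add_mul, mul_assoc (b * a) R Ri, r1, mul_one, mul_assoc s]
      _ = h * g := by rw [← heq, mul_assoc, r1, mul_one]
  have hsi2 : si * si = bi * (ci * ci) * bi := by
    have : bi * (ci * ci) * bi * (s * s) = 1 := by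
      rw [hss]
      calc bi * (ci * ci) * bi * (b * (c * c) * b)
          = bi * (ci * (ci * (bi * b) * c) * c) * b := by noncomm_ring
        _ = 1 := by rw [b2, mul_one, c2, mul_one, c2, mul_one, b2]
    calc si * si = bi * (ci * ci) * bi * (s * s) * (si * si) := by rw [this, one_mul]
      _ = bi * (ci * ci) * bi * (s * (s * si) * si) := by noncomm_ring
      _ = _ := by rw [s1, mul_one, s1, mul_one]
  have hineq : si * (c * c) * si ≤ W * (bi * bi) * star W := by
    have h1 := parallel (x := b * a) (y := s * W) (P := a * a) (Q := b * b) (Pi := ai * ai)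
      (Qi := bi * bi) (K := gi * gi) (by rw [star_mul, sa]) (by rw [star_mul, sb])
      (by rw [star_mul, sgi]) (sq_nonneg' sai) (sq_nonneg' sbi)
      (by rw [mul_assoc, ← mul_assoc a ai, a1, one_mul, a1])
      (by rw [mul_assoc, ← mul_assoc ai a, a2, one_mul, a2])
      (by rw [mul_assoc, ← mul_assoc b bi, b1, one_mul, b1])
      (by rw [mul_assoc, ← mul_assoc bi b, b2, one_mul, b2])
      (by rw [← hgg, mul_assoc, ← mul_assoc g gi, g1, one_mul, g1])
    have e1 : (b * a + s * W) * (gi * gi) * star (b * a + s * W) = b * b + c * c := by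
      rw [heq', star_mul, sg, sh, ← hhh]
      calc h * g * (gi * gi) * (g * h) = h * (g * gi) * (gi * g) * h := by noncomm_ring
        _ = h * h := by rw [g1, g2, mul_one, mul_one]
    have e2 : b * a * (ai * ai) * star (b * a) = b * b := by
      rw [star_mul, sa, sb]
      calc b * a * (ai * ai) * (a * b) = b * (a * ai) * (ai * a) * b := by noncomm_ring
        _ = b * b := by rw [a1, a2, mul_one, mul_one]
    rw [e1, e2, add_le_add_iff_left] at h1
    have h2 := star_left_conjugate_le_conjugate h1 si
    rw [ssi] at h2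
    refine h2.trans (le_of_eq ?_)
    rw [star_mul, ss]
    calc si * (s * W * (bi * bi) * (star W * s)) * si
        = (si * s) * W * (bi * bi) * star W * (s * si) := by noncomm_ring
      _ = _ := by rw [s1, s2, one_mul, mul_one]
  have hbbS : bi * bi ∈ S := mul_mem hbiS hbiS
  have hconjS : W * (bi * bi) * star W ∈ S := mul_mem (mul_mem hWS hbbS) (star_mem hWS)
  have t5 : ∀ τ : A →ₗ[ℂ] ℂ, (∀ y ∈ S, ∀ z ∈ S, τ (y * z) = τ (z * y)) →
      τ (W * (bi * bi) * star W) = τ (bi * bi) := by
    intro τ ht
    rw [ht _ (mul_mem hWS hbbS) _ (star_mem hWS), ← mul_assoc, hW1, one_mul]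
  obtain ⟨Z, hZ⟩ : ∃ Z, Z = c * bi * ci := ⟨_, rfl⟩
  have sZ : star Z = ci * bi * c := by
    rw [hZ]; simp only [star_mul, sc, sbi, sci, mul_assoc]
  have hZS : Z ∈ S := hZ ▸ mul_mem (mul_mem hcS hbiS) hciS
  have hZ'S : star Z ∈ S := star_mem hZS
  have hsym : Z - star Z = 0 := by
    apply htr _ (sub_mem hZS hZ'S)
    intro τ ht hp
    have mono : ∀ y ∈ S, 0 ≤ y → 0 ≤ (τ y).re := by
      intro y hy hy0
      have := hp _ (sqrt_mem hS hy0 hy)
      rwa [(sqrt_nonneg y).isSelfAdjoint.star_eq, sqrt_mul_sqrt_self y hy0] at this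
    have t1 : τ (Z * Z) = τ (bi * bi) := by
      have : Z * Z = c * (bi * bi * ci) := by
        rw [hZ]
        calc c * bi * ci * (c * bi * ci) = c * bi * (ci * c) * bi * ci := by noncomm_ring
          _ = _ := by rw [c2]; noncomm_ring
      rw [this, ht _ hcS _ (mul_mem hbbS hciS), mul_assoc, c2, mul_one]
    have t2 : τ (star Z * star Z) = τ (bi * bi) := by
      have : star Z * star Z = ci * (bi * bi * c) := by
        rw [sZ]
        calc ci * bi * c * (ci * bi * c) = ci * bi * (c * ci) * bi * c := by noncomm_ring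
          _ = _ := by rw [c1]; noncomm_ring
      rw [this, ht _ hciS _ (mul_mem hbbS hcS), mul_assoc, c1, mul_one]
    have t3 : τ (Z * star Z) = τ (si * (c * c) * si) := by
      have e1 : Z * star Z = c * (si * si * c) := by
        rw [sZ, hsi2, hZ]; noncomm_ring
      rw [e1, ht _ hcS _ (mul_mem (mul_mem hsiS hsiS) hcS), mul_assoc, mul_assoc,
        ht _ hsiS _ (mul_mem hsiS (mul_mem hcS hcS))]
    have t4 : τ (star Z * Z) = τ (si * (c * c) * si) := by rw [ht _ hZ'S _ hZS, t3]
    have t6 : 0 ≤ (τ (bi * bi) - τ (si * (c * c) * si)).re := by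
      rw [← t5 τ ht, ← map_sub]
      exact mono _ (sub_mem hconjS (mul_mem (mul_mem hsiS (mul_mem hcS hcS)) hsiS))
        (sub_nonneg.mpr hineq)
    have t7 : τ (star (Z - star Z) * (Z - star Z))
        = -(τ (bi * bi) - τ (si * (c * c) * si)) + -(τ (bi * bi) - τ (si * (c * c) * si)) := by
      have : star (Z - star Z) * (Z - star Z)
          = star Z * Z + Z * star Z - Z * Z - star Z * star Z := by
        rw [star_sub, star_star]; noncomm_ring
      rw [this, map_sub, map_sub, map_add, t1, t2, t3, t4]; ring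
    rw [t7, Complex.add_re, Complex.neg_re]
    linarith
  rw [sub_eq_zero, sZ, hZ] at hsym
  have cbc : Commute b c := by
    have d1 : c * c * bi = bi * (c * c) := by
      calc c * c * bi = c * (c * bi * ci) * c := by
            calc c * c * bi = c * c * bi * (ci * c) := by rw [c2, mul_one]
              _ = _ := by noncomm_ring
        _ = (c * ci) * bi * (c * c) := by rw [hsym]; noncomm_ring
        _ = bi * (c * c) := by rw [c1, one_mul]
    have d2 : Commute (c * c) b := by
      calc c * c * b = (b * bi) * (c * c) * b := by rw [b1, one_mul]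
        _ = b * (c * c * bi) * b := by rw [d1]; noncomm_ring
        _ = b * (c * c) := by rw [mul_assoc, mul_assoc, b2, mul_one]
    exact (comm_of_sq hc d2).symm
  have hsbc : s = b * c := by
    apply sq_inj hs (cbc.mul_nonneg hb hc)
    rw [hss]
    calc b * (c * c) * b = b * c * (c * b) := by noncomm_ring
      _ = _ := by rw [cbc.eq]
  have hsi : si * (c * c) * si = bi * bi := by
    have e1 : si * c = bi := by
      calc si * c = si * (c * b) * bi := by rw [mul_assoc, mul_assoc, b1, mul_one]
        _ = bi := by rw [← cbc.eq, ← hsbc, s2, one_mul]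
    have e2 : c * si = bi := by
      have := congrArg star e1
      rwa [star_mul, sc, ssi, sbi] at this
    calc si * (c * c) * si = (si * c) * (c * si) := by noncomm_ring
      _ = _ := by rw [e1, e2]
  rw [hsi] at hineq
  have hD : W * (bi * bi) * star W - bi * bi = 0 := by
    have hD0 : 0 ≤ W * (bi * bi) * star W - bi * bi := sub_nonneg.mpr hineq
    have : sqrt (W * (bi * bi) * star W - bi * bi) = 0 := by
      apply htr _ (sqrt_mem hS hD0 (sub_mem hconjS hbbS))
      intro τ ht _
      rw [(sqrt_nonneg _).isSelfAdjoint.star_eq, sqrt_mul_sqrt_self _ hD0, map_sub, t5 τ ht]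
      simp
    rw [← sqrt_mul_sqrt_self _ hD0, this, mul_zero]
  have cWb : Commute b W := by
    apply comm_of_sq hb
    rw [sub_eq_zero] at hD
    have e : W * (bi * bi) = bi * bi * W := by
      calc W * (bi * bi) = W * (bi * bi) * (star W * W) := by rw [hW1, mul_one]
        _ = bi * bi * W := by rw [← mul_assoc, hD]
    calc b * b * W = b * b * W * (bi * (bi * b) * b) := by rw [b2, mul_one, b2, mul_one]
      _ = b * b * (W * (bi * bi)) * (b * b) := by noncomm_ring
      _ = b * (b * bi) * bi * W * (b * b) := by rw [e]; noncomm_ring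
      _ = W * (b * b) := by rw [b1, mul_one, b1, one_mul]
  obtain ⟨y, hy⟩ : ∃ y, y = b * W := ⟨_, rfl⟩
  have sy : star y = star W * b := by rw [hy, star_mul, sb]
  have yy1 : star y * y = b * b := by
    rw [sy, hy]
    calc star W * b * (b * W) = star W * (b * (b * W)) := by noncomm_ring
      _ = (star W * W) * (b * b) := by rw [cWb.eq, ← mul_assoc b W b, cWb.eq]; noncomm_ring
      _ = b * b := by rw [hW1, one_mul]
  have yy2 : y * star y = b * b := by
    rw [sy, hy]
    calc b * W * (star W * b) = b * (W * star W) * b := by noncomm_ring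
      _ = b * b := by rw [hW2, mul_one]
  have ny : IsStarNormal y := ⟨by rw [Commute, SemiconjBy, yy1, yy2]⟩
  have hR1 : star y * a = R := by
    rw [sy, mul_assoc, ← hWR, ← mul_assoc, hW1, one_mul]
  have hR2 : a * y = R := by
    have := congrArg star hR1
    rwa [star_mul, star_star, sa, sR] at this
  have f1 : SemiconjBy a y (star y) := by rw [SemiconjBy, hR1, hR2]
  have f2 : SemiconjBy a (star y) y := by
    have := SemiconjBy.star_right ny ny.star f1
    rwa [star_star] at this
  have hk : y - star y = 0 := by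
    apply anti_zero ha hau
    · rw [star_sub, star_star, neg_sub]
    · rw [sub_mul, mul_sub, f1.eq, f2.eq, neg_sub]
  rw [sub_eq_zero] at hk
  have cy : Commute y a := by rw [Commute, SemiconjBy, f1.eq, ← hk]
  have : Commute (b * b) a := by
    rw [← yy1, ← hk]
    exact cy.mul_left cy
  exact (comm_of_sq hb this).symm

end Pool.Agent.Lib.MP_15115f_an
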