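import Pool.Agent.Lib.MP_15115f_an.Bin

namespace Pool.Agent.Lib.MP_15115f_an

open CFC

set_option linter.unusedSectionVars false

variable {A : Type*} [CStarAlgebra A] [PartialOrder A] [StarOrderedRing A]

lemma half_smul_nonneg {y : A} (hy : 0 ≤ y) : 0 ≤ (1 / 2 : ℂ) • y := by
  have : (1 / 2 : ℂ) • y = (1 / 2 : ℝ) • y := by
    rw [← Complex.coe_smul]; norm_num
  rw [this]
  exact smul_nonneg (by norm_num) hy

theorem main {V P W Z : A} (h : Pol V P) (hbi : Commute P (V * P * star V))
    {S M : A} (hS : S = sqrt P * V * sqrt P) (hM : M = (1 / 2 : ℂ) • (V * P + P * V))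
    (hW : Pol W (CFC.abs S)) (hWS : S = W * CFC.abs S)
    (hZ : Pol Z (CFC.abs M)) (hZM : M = Z * CFC.abs M) :
    (1 / 2 : ℂ) • (S + CFC.abs S * W) = sqrt (CFC.abs M) * Z * sqrt (CFC.abs M) ↔
      Commute (V * P) (P * V) := by
  set x := sqrt P with hxdef
  set E := star V * V with hE
  set F := V * star V with hF
  set Q := star V * P * V with hQ
  set Q1 := V * P * star V with hQ1
  set a := star V * x * V with ha
  set b := V * x * star V with hb
  have hP := h.pos
  have sP := h.sP
  have hx : 0 ≤ x := sqrt_nonneg P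
  have hxx : x * x = P := sqrt_mul_sqrt_self P hP
  have hapos : 0 ≤ a := star_left_conjugate_nonneg hx V
  have hbpos : 0 ≤ b := star_right_conjugate_nonneg hx V
  have hFpos : 0 ≤ F := mul_star_self_nonneg V
  have hQpos : 0 ≤ Q := star_left_conjugate_nonneg hP V
  have hQ1pos : 0 ≤ Q1 := star_right_conjugate_nonneg hP V
  have sx : star x = x := hx.isSelfAdjoint.star_eq
  have sa : star a = a := hapos.isSelfAdjoint.star_eq
  have sb : star b = b := hbpos.isSelfAdjoint.star_eq
  have sF : star F = F := hFpos.isSelfAdjoint.star_eq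
  have sQ : star Q = Q := hQpos.isSelfAdjoint.star_eq
  have sQ1 : star Q1 = Q1 := hQ1pos.isSelfAdjoint.star_eq
  have sE : star E = E := by simp [hE, star_mul]
  have VE : V * E = V := h.VE
  have FV : F * V = V := h.FV
  have EV' : E * star V = star V := h.EV'
  have V'F : star V * F = star V := h.V'F
  have PE : P * E = P := h.PE
  have EP : E * P = P := h.EP
  have FF : F * F = F := by rw [hF, ← mul_assoc, FV]
  have xE : x * E = x := Pol.mulE_of_sq hx (by rw [hxx]; exact PE)
  have Ex : E * x = x := Pol.Emul_of_mulE sx xE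
  have cPF : Commute P F := h.commF sP hbi
  have cxF : Commute x F := comm_sqrt cPF
  have haa : a * a = Q := by
    calc a * a = star V * x * F * x * V := by rw [ha, hF]; noncomm_ring
      _ = star V * (x * F) * x * V := by noncomm_ring
      _ = star V * F * (x * x) * V := by rw [cxF.eq]; noncomm_ring
      _ = Q := by rw [V'F, hxx]
  have hbb : b * b = Q1 := by
    calc b * b = V * (x * E) * x * star V := by rw [hb, hE]; noncomm_ring
      _ = V * (x * x) * star V := by rw [xE]; noncomm_ring
      _ = Q1 := by rw [hxx]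
  have QE : Q * E = Q := by rw [hQ, mul_assoc, VE]
  have EQ : E * Q = Q := by rw [hQ, ← mul_assoc, ← mul_assoc, EV']
  have aE : a * E = a := by rw [ha, mul_assoc, VE]
  have Ea : E * a = a := by rw [ha, ← mul_assoc, ← mul_assoc, EV']
  have bF : b * F = b := by rw [hb, mul_assoc, V'F]
  have Q1F : Q1 * F = Q1 := by rw [hQ1, mul_assoc, V'F]
  have cPQ : Commute P Q := by
    have e : star V * (P * Q1) * V = star V * (Q1 * P) * V := by rw [hbi.eq]
    calc P * Q = E * P * Q := by rw [EP]
      _ = star V * (Q1 * P) * V := by rw [hE, hQ, hQ1]; noncomm_ring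
      _ = star V * (P * Q1) * V := e.symm
      _ = Q * (P * E) := by rw [hE, hQ, hQ1]; noncomm_ring
      _ = Q * P := by rw [PE]
  have cxa : Commute x a := by
    apply comm_sqrt; apply Commute.symm; apply comm_of_sq hapos; rw [haa]; exact cPQ.symm
  have cxb : Commute x b := by
    apply comm_sqrt; apply Commute.symm; apply comm_of_sq hbpos; rw [hbb]; exact hbi.symm
  have cbE : Commute b E := h.commE sb (by rw [← hxx]; exact cxb.symm.mul_right cxb.symm)
  have cQ1E : Commute Q1 E := h.commE sQ1 hbi.symm
  have cFE : Commute F E := h.commE sF cPF.symm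
  have xV : x * V = V * a := by
    calc x * V = x * F * V := by rw [mul_assoc, FV]
      _ = F * x * V := by rw [cxF.eq]
      _ = V * a := by rw [hF, ha]; noncomm_ring
  have Vx : V * x = b * V := by
    calc V * x = V * (x * E) := by rw [xE]
      _ = b * V := by rw [hE, hb]; noncomm_ring
  have PV : P * V = V * Q := by
    calc P * V = P * F * V := by rw [mul_assoc, FV]
      _ = F * P * V := by rw [cPF.eq]
      _ = V * Q := by rw [hF, hQ]; noncomm_ring
  have VP : V * P = Q1 * V := by
    calc V * P = V * (P * E) := by rw [PE]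
      _ = Q1 * V := by rw [hE, hQ1]; noncomm_ring
  have kx : ∀ X : A, x * X = 0 → V * X = 0 := by
    intro X hX
    apply h.ker2
    rw [← hxx, mul_assoc, hX, mul_zero]
  -- the Aluthge transform
  have hxa0 : 0 ≤ x * a := Commute.mul_nonneg hx hapos cxa
  have hSa : S = V * (a * x) := by rw [hS, xV, mul_assoc]
  have absS : CFC.abs S = x * a := by
    apply sq_inj (CFC.abs_nonneg _) hxa0
    rw [abs_mul_abs, hSa, star_mul, star_mul, sx, sa]
    calc x * a * star V * (V * (a * x)) = x * (a * E) * (a * x) := by rw [hE]; noncomm_ring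
      _ = _ := by rw [aE, cxa.eq]
  have hWEV : W = E * V := by
    apply hW.unique
    · rw [← hWS, absS, cxa.eq, mul_assoc E, ← mul_assoc V, ← xV, ← mul_assoc E, ← mul_assoc E,
        Ex, hS]
    · intro X hX
      rw [← hWS, hS] at hX
      have h1 : V * (V * x * X) = 0 := kx _ (by rw [← hX]; noncomm_ring)
      have h2 : E * (b * V * X) = 0 := by
        rw [← Vx, hE, mul_assoc, h1, mul_zero]
      have h3 : Q1 * (E * V * X) = 0 := by
        calc Q1 * (E * V * X) = b * (b * E) * V * X := by rw [← hbb]; noncomm_ring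
          _ = b * (E * (b * V * X)) := by rw [cbE.eq]; noncomm_ring
          _ = 0 := by rw [h2, mul_zero]
      have h4 : F * (E * V * X) = 0 := h.kerQ1 _ h3
      calc E * V * X = E * (F * V) * X := by rw [FV]
        _ = (E * F) * V * X := by noncomm_ring
        _ = F * (E * V * X) := by rw [← cFE.eq]; noncomm_ring
        _ = 0 := h4
  -- the mean transform
  have hPQ0 : 0 ≤ P + Q := add_nonneg hP hQpos
  have hR0 : 0 ≤ (1 / 2 : ℂ) • (P + Q) := half_smul_nonneg hPQ0
  have hMV : M = V * ((1 / 2 : ℂ) • (P + Q)) := by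
    rw [hM, PV, mul_smul_comm, mul_add]
  have absM : CFC.abs M = (1 / 2 : ℂ) • (P + Q) := by
    apply sq_inj (CFC.abs_nonneg _) hR0
    rw [abs_mul_abs, hMV, star_mul, hR0.isSelfAdjoint.star_eq]
    have : E * ((1 / 2 : ℂ) • (P + Q)) = (1 / 2 : ℂ) • (P + Q) := by
      rw [mul_smul_comm, mul_add, EP, EQ]
    calc _ = (1 / 2 : ℂ) • (P + Q) * (E * ((1 / 2 : ℂ) • (P + Q))) := by
          rw [hE]; noncomm_ring
      _ = _ := by rw [this]
  have hZV : Z = V := by
    apply hZ.unique
    · rw [← hZM, absM, hMV]
    · intro X hX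
      rw [← hZM, hMV] at hX
      have h1 : (P + Q) * X = 0 := by
        have e : E * (P + Q) = P + Q := by rw [mul_add, EP, EQ]
        have h2 : V * (P + Q) * X = 0 := by
          rw [mul_smul_comm, smul_mul_assoc, smul_eq_zero] at hX
          exact hX.resolve_left (by norm_num)
        rw [← e, hE, mul_assoc, mul_assoc, ← mul_assoc V, h2, mul_zero]
      have h2 : star X * P * X + star X * Q * X = 0 := by
        calc _ = star X * ((P + Q) * X) := by noncomm_ring
          _ = 0 := by rw [h1, mul_zero]
      have h3 : star X * P * X = 0 :=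
        (add_eq_zero_iff_of_nonneg (star_left_conjugate_nonneg hP X)
          (star_left_conjugate_nonneg hQpos X)).mp h2 |>.1
      apply kx
      apply (CStarRing.star_mul_self_eq_zero_iff _).mp
      rw [star_mul, sx, ← h3, ← hxx]; noncomm_ring
  rw [absS, absM, hWEV, hZV]
  set g0 := sqrt ((1 / 2 : ℂ) • (P + Q)) with hg0
  have hg00 : 0 ≤ g0 := sqrt_nonneg _
  have hg0sq : g0 * g0 = (1 / 2 : ℂ) • (P + Q) := sqrt_mul_sqrt_self _ hR0
  set g : A := (√2 : ℝ) • g0 with hg
  have hgpos : 0 ≤ g := smul_nonneg (Real.sqrt_nonneg 2) hg00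
  have two : ∀ y z : A, g * y * g = (2 : ℂ) • (g0 * y * g0) := by
    intro y z
    rw [hg, smul_mul_assoc, smul_mul_assoc, mul_smul_comm, smul_smul,
      Real.mul_self_sqrt (by norm_num), ← Complex.coe_smul]
    norm_num
  have hgg : g * g = x * x + a * a := by
    have := two 1 1
    rw [mul_one, mul_one, hg0sq, smul_smul] at this
    rw [this, hxx, haa]; norm_num
  have gE : g * E = g := Pol.mulE_of_sq hgpos (by rw [hgg, hxx, haa, add_mul, PE, QE])
  set k := V * g * star V with hk
  have hkpos : 0 ≤ k := star_right_conjugate_nonneg hgpos V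
  have hkk : k * k = b * b + x * x * F := by
    calc k * k = V * (g * E) * g * star V := by rw [hk, hE]; noncomm_ring
      _ = V * (g * g) * star V := by rw [gE]; noncomm_ring
      _ = V * P * star V + (V * Q) * star V := by rw [hgg, hxx, haa]; noncomm_ring
      _ = _ := by rw [← PV, hbb, hxx, mul_assoc P]
  have Vg : V * g = k * V := by
    calc V * g = V * (g * E) := by rw [gE]
      _ = k * V := by rw [hE, hk]; noncomm_ring
  have kF : k * F = k := by rw [hk, mul_assoc, V'F]
  have step1 : (1 / 2 : ℂ) • (S + x * a * (E * V)) = g0 * V * g0 ↔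
      x * b + a * x * F = g * k := by
    have e1 : S + x * a * (E * V) = (x * b + a * x * F) * V := by
      clear_value a b E F
      calc S + x * a * (E * V) = x * (V * x) + x * (a * E) * V := by rw [hS]; noncomm_ring
        _ = x * (b * V) + a * x * (F * V) := by rw [Vx, aE, cxa.eq, FV]
        _ = _ := by noncomm_ring
    have e2 : g * V * g = g * k * V := by
      clear_value k
      rw [mul_assoc, Vg, mul_assoc]
    have e3 : (1 / 2 : ℂ) • (S + x * a * (E * V)) = g0 * V * g0 ↔
        S + x * a * (E * V) = g * V * g := by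
      rw [two V 1]
      constructor
      · intro e; rw [← e, smul_smul]; norm_num
      · intro e; rw [e, smul_smul]; norm_num
    rw [e3, e1, e2]
    constructor
    · intro e
      clear_value a b k F
      calc x * b + a * x * F = x * (b * F) + a * x * (F * F) := by rw [bF, FF]
        _ = (x * b + a * x * F) * V * star V := by
            rw [mul_assoc _ V, ← hF]; noncomm_ring
        _ = g * k := by rw [e, mul_assoc _ V, ← hF, mul_assoc, kF]
    · intro e; rw [e]
  rw [step1, heart hx hapos hbpos hFpos hgpos hkpos FF cxa cxb cxF bF hgg hkk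
    (fun X hX => by rw [ha, mul_assoc, kx X hX, mul_zero])
    (fun hab => h.commF sa (by rw [← hQ1, ← hbb]; exact hab.mul_right hab))]
  rw [hxx]
  constructor
  · intro hab
    have cab : Commute a b := by
      have := congrArg star hab
      simp only [star_mul, sP, sa, sb, sF] at this
      rw [Commute, SemiconjBy, this, hab, cPF.eq]
    have e : Q * Q1 = P * P * F := by
      calc Q * Q1 = a * (a * b) * b := by rw [← haa, ← hbb]; noncomm_ring
        _ = (a * b) * (a * b) := by rw [mul_assoc a (a * b) b, mul_assoc a b b, mul_assoc a b,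
              ← mul_assoc b a b, ← cab.eq, mul_assoc a b b]
        _ = P * (F * P) * F := by rw [hab]; noncomm_ring
        _ = P * P * (F * F) := by rw [← cPF.eq]; noncomm_ring
        _ = _ := by rw [FF]
    calc V * P * (P * V) = V * (P * P * F) * V := by
          rw [mul_assoc V _ V, mul_assoc _ F V, FV]; noncomm_ring
      _ = (V * Q) * (Q1 * V) := by rw [← e]; noncomm_ring
      _ = P * V * (V * P) := by rw [← PV, ← VP]
  · intro hc
    have e : Q * Q1 = P * P * F := by
      calc Q * Q1 = (E * Q) * (Q1 * F) := by rw [EQ, Q1F]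
        _ = star V * ((V * Q) * (Q1 * V)) * star V := by rw [hE, hF]; noncomm_ring
        _ = star V * (V * P * (P * V)) * star V := by rw [← PV, ← VP, hc.eq]
        _ = (E * P) * P * F := by rw [hE, hF]; noncomm_ring
        _ = _ := by rw [EP]
    have cQ : Commute Q Q1 := by
      have := congrArg star e
      simp only [star_mul, sP, sQ, sQ1, sF] at this
      rw [Commute, SemiconjBy, this, e]
      exact ((cPF.mul_left cPF).eq)
    have cab : Commute a b := by
      apply comm_of_sq hapos; apply Commute.symm; apply comm_of_sq hbpos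
      rw [haa, hbb]; exact cQ.symm
    apply sq_inj (Commute.mul_nonneg hapos hbpos cab) (Commute.mul_nonneg hP hFpos cPF)
    calc a * b * (a * b) = a * (b * a) * b := by noncomm_ring
      _ = (a * a) * (b * b) := by rw [← cab.eq]; noncomm_ring
      _ = P * P * (F * F) := by rw [haa, hbb, e, FF]
      _ = P * (P * F) * F := by noncomm_ring
      _ = P * (F * P) * F := by rw [cPF.eq]
      _ = _ := by noncomm_ring

end Pool.Agent.Lib.MP_15115f_an
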