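import Pool.Agent.Lib.MP_15115f_an.Main

namespace Pool.Agent.Lib.MP_15115f_an

open scoped ComplexOrder

set_option linter.unusedSectionVars false

section Gelfand

variable {E : Type*} [NormedRing E] [NormedAlgebra ℂ E] [CompleteSpace E]

/-- Spectral mapping for a commuting family through the bicommutant. -/
lemma unit_of_chars (s : Set E) (hs : ∀ a ∈ s, ∀ b ∈ s, a * b = b * a) (t : E)
    (ht : t ∈ Subalgebra.centralizer ℂ (Set.centralizer s))
    (h : ∀ φ : Subalgebra.centralizer ℂ (Set.centralizer s) →ₐ[ℂ] ℂ,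
      (∀ b : Subalgebra.centralizer ℂ (Set.centralizer s), φ b ∈ spectrum ℂ (b : E)) → φ ⟨t, ht⟩ ≠ 0) : IsUnit t := by
  set B := Subalgebra.centralizer ℂ (Set.centralizer s) with hB
  have hsub : ∀ b ∈ B, b ∈ Set.centralizer s := by
    intro b hb a ha
    have : a ∈ Set.centralizer s := fun c hc => hs c hc a ha
    exact hb a this
  let _ : NormedCommRing B :=
    { (inferInstance : NormedRing B) with
      mul_comm := fun a b => Subtype.ext (b.2 a (hsub a a.2)) }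
  have _ : CompleteSpace B :=
    (Set.isClosed_centralizer (Set.centralizer s) : IsClosed (B : Set E)).completeSpace_coe
  by_contra hu
  have hu' : ¬ IsUnit (⟨t, ht⟩ : B) := fun hh => hu (hh.map B.val)
  obtain ⟨f, hf⟩ := WeakDual.CharacterSpace.exists_apply_eq_zero hu'
  refine h (WeakDual.CharacterSpace.equivAlgHom f) (fun b => ?_) hf
  set φ := WeakDual.CharacterSpace.equivAlgHom f with hφ
  intro hunit
  obtain ⟨u, hu⟩ := hunit
  have hmem : (algebraMap ℂ E (φ b) - b) ∈ B := B.sub_mem (B.algebraMap_mem _) b.2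
  have hinv : (↑u⁻¹ : E) ∈ B := by
    intro c hc
    have h1 : c * u = u * c := by rw [hu]; exact hmem c hc
    calc c * ↑u⁻¹ = ↑u⁻¹ * (u * c) * ↑u⁻¹ := by rw [← mul_assoc, Units.inv_mul, one_mul]
      _ = ↑u⁻¹ * c := by rw [← h1, mul_assoc, mul_assoc, Units.mul_inv, mul_one]
  have e : (algebraMap ℂ B (φ b) - b) * ⟨_, hinv⟩ = 1 := by
    apply Subtype.ext
    change (algebraMap ℂ E (φ b) - b) * ↑u⁻¹ = 1
    rw [← hu, Units.mul_inv]
  have := congrArg φ e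
  rw [map_mul, map_sub, AlgHom.commutes, map_one] at this
  simp at this

lemma le_of_sq_le_sq_aux {a b : ℝ} (h : a ^ 2 ≤ b ^ 2) (hb : 0 ≤ b) : a ≤ b :=
  (abs_le_of_sq_le_sq' h hb).2

lemma symbol_pos {x y c e : ℝ} (hx : 0 ≤ x) (hx1 : x ≤ 1) (hy : 0 ≤ y) (hy1 : y ≤ 1)
    (hc : 0 ≤ c) (he : 0 ≤ e) (h1 : c ^ 4 = 1 + 3 * x ^ 2) (h2 : e ^ 4 = 1 + 3 * y ^ 2) :
    6 * (x + y) * y < (c ^ 2 + e ^ 2) * (c + e) * e := by
  have c1 : 1 ≤ c := by
    by_contra hh
    have : c ^ 4 < 1 := pow_lt_one₀ hc (not_le.mp hh) (by norm_num)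
    nlinarith
  have c2 : 2 * x ≤ c ^ 2 := by
    apply le_of_sq_le_sq_aux <;> nlinarith
  have e2 : 2 * y ≤ e ^ 2 := by
    apply le_of_sq_le_sq_aux <;> nlinarith
  have ey : y < e := by
    by_contra hh
    have : e ^ 4 ≤ y ^ 4 := pow_le_pow_left₀ he (not_lt.mp hh) 4
    have : y ^ 4 ≤ 1 := pow_le_one₀ hy hy1
    have : y ^ 2 ≤ 0 := by nlinarith
    have : y = 0 := by nlinarith
    subst this
    simp at *
    nlinarith
  have h3 : 3 * y < (c + e) * e := by nlinarith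
  have h4 : 0 < c ^ 2 + e ^ 2 := by positivity
  calc 6 * (x + y) * y = (2 * x + 2 * y) * (3 * y) := by ring
    _ ≤ (c ^ 2 + e ^ 2) * (3 * y) := by gcongr
    _ < (c ^ 2 + e ^ 2) * ((c + e) * e) := by gcongr
    _ = _ := by ring

lemma unit_symbol {l r m n : E} (c1 : l * r = r * l) (c2 : l * m = m * l) (c3 : l * n = n * l)
    (c4 : r * m = m * r) (c5 : r * n = n * r) (c6 : m * n = n * m)
    (hl : ∀ z ∈ spectrum ℂ l, ∃ x : ℝ, 0 ≤ x ∧ x ≤ 1 ∧ z = x)
    (hr : ∀ z ∈ spectrum ℂ r, ∃ x : ℝ, 0 ≤ x ∧ x ≤ 1 ∧ z = x)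
    (hm : ∀ z ∈ spectrum ℂ m, ∃ x : ℝ, 0 ≤ x ∧ z = x)
    (hn : ∀ z ∈ spectrum ℂ n, ∃ x : ℝ, 0 ≤ x ∧ z = x)
    (h1 : m ^ 4 = 1 + (3 : ℂ) • l ^ 2) (h2 : n ^ 4 = 1 + (3 : ℂ) • r ^ 2) :
    IsUnit ((m ^ 2 + n ^ 2) * (m + n) * n - (6 : ℂ) • ((l + r) * r)) := by
  let s : Set E := {l, r, m, n}
  have hs : ∀ a ∈ s, ∀ b ∈ s, a * b = b * a := by
    intro a ha b hb
    simp only [s, Set.mem_insert_iff, Set.mem_singleton_iff] at ha hb
    rcases ha with rfl | rfl | rfl | rfl <;> rcases hb with rfl | rfl | rfl | rfl <;>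
      first | rfl | assumption | (symm; assumption)
  set B := Subalgebra.centralizer ℂ (Set.centralizer s) with hB
  have hin : ∀ a ∈ s, a ∈ B := fun a ha => Set.subset_centralizer_centralizer ha
  let L : B := ⟨l, hin l (by simp [s])⟩
  let R : B := ⟨r, hin r (by simp [s])⟩
  let M : B := ⟨m, hin m (by simp [s])⟩
  let N : B := ⟨n, hin n (by simp [s])⟩
  let t : B := (M ^ 2 + N ^ 2) * (M + N) * N - (6 : ℂ) • ((L + R) * R)
  refine unit_of_chars s hs _ t.2 (fun φ hφ => ?_)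
  obtain ⟨x, hx, hx1, ex⟩ := hl _ (hφ L)
  obtain ⟨y, hy, hy1, ey⟩ := hr _ (hφ R)
  obtain ⟨c, hc, ec⟩ := hm _ (hφ M)
  obtain ⟨e, he, ee⟩ := hn _ (hφ N)
  have k1 : φ (M ^ 4) = φ (1 + (3 : ℂ) • L ^ 2) := congrArg φ (Subtype.ext h1)
  have k2 : φ (N ^ 4) = φ (1 + (3 : ℂ) • R ^ 2) := congrArg φ (Subtype.ext h2)
  simp only [map_pow, map_add, map_one, map_smul, ex, ey, ec, ee, smul_eq_mul] at k1 k2
  have := symbol_pos hx hx1 hy hy1 hc he (by exact_mod_cast k1) (by exact_mod_cast k2)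
  change φ t ≠ 0
  simp only [t, map_pow, map_add, map_sub, map_mul, map_smul, ex, ey, ec, ee, smul_eq_mul]
  intro h0
  have : (c ^ 2 + e ^ 2) * (c + e) * e - 6 * ((x + y) * y) = 0 := by exact_mod_cast h0
  linarith

end Gelfand

variable {A : Type*} [CStarAlgebra A] [PartialOrder A] [StarOrderedRing A]

lemma spec_L (a : A) : spectrum ℂ (ContinuousLinearMap.mul ℂ A a) ⊆ spectrum ℂ a := by
  intro z hz hu
  apply hz
  obtain ⟨u, hu⟩ := hu
  refine ⟨⟨_, ContinuousLinearMap.mul ℂ A ↑u⁻¹, ?_, ?_⟩, rfl⟩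
  · ext y
    have : z • (↑u⁻¹ * y : A) - a * (↑u⁻¹ * y) = u * (↑u⁻¹ * y) := by
      rw [hu, sub_mul, Algebra.algebraMap_eq_smul_one, smul_mul_assoc, one_mul]
    simpa [Algebra.algebraMap_eq_smul_one] using this
  · ext y
    have : (↑u⁻¹ : A) * (z • y - a * y) = ↑u⁻¹ * (u * y) := by
      rw [hu, sub_mul, Algebra.algebraMap_eq_smul_one, smul_mul_assoc, one_mul]
    simpa [Algebra.algebraMap_eq_smul_one] using this

lemma spec_R (a : A) : spectrum ℂ ((ContinuousLinearMap.mul ℂ A).flip a) ⊆ spectrum ℂ a := by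
  intro z hz hu
  apply hz
  obtain ⟨u, hu⟩ := hu
  refine ⟨⟨_, (ContinuousLinearMap.mul ℂ A).flip ↑u⁻¹, ?_, ?_⟩, rfl⟩
  · ext y
    have : z • (y * ↑u⁻¹ : A) - (y * ↑u⁻¹) * a = (y * ↑u⁻¹) * u := by
      rw [hu, mul_sub, Algebra.algebraMap_eq_smul_one, mul_smul_comm, mul_one]
    simpa [Algebra.algebraMap_eq_smul_one] using this
  · ext y
    have : (z • y - y * a) * (↑u⁻¹ : A) = (y * u) * ↑u⁻¹ := by
      rw [hu, mul_sub, Algebra.algebraMap_eq_smul_one, mul_smul_comm, mul_one]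
    simpa [Algebra.algebraMap_eq_smul_one, sub_mul] using this

lemma spec_nonneg {a : A} (ha : 0 ≤ a) {z : ℂ} (hz : z ∈ spectrum ℂ a) :
    ∃ x : ℝ, 0 ≤ x ∧ z = x := by
  have h0 : 0 ≤ z := spectrum_nonneg_of_nonneg ha hz
  exact ⟨z.re, (Complex.nonneg_iff.mp h0).1, Complex.ext rfl (by simp [(Complex.nonneg_iff.mp h0).2])⟩

lemma spec_unit {a : A} (ha : 0 ≤ a) (ha1 : a ≤ 1) {z : ℂ} (hz : z ∈ spectrum ℂ a) :
    ∃ x : ℝ, 0 ≤ x ∧ x ≤ 1 ∧ z = x := by
  obtain ⟨x, hx, rfl⟩ := spec_nonneg ha hz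
  have h1 : (1 : ℂ) - x ∈ spectrum ℂ (1 - a) := by
    intro hu
    apply hz
    have : algebraMap ℂ A (1 - x) - (1 - a) = -(algebraMap ℂ A x - a) := by
      rw [map_sub, map_one]; abel
    rw [spectrum.mem_resolventSet_iff, this] at hu
    exact (IsUnit.neg_iff _).mp hu
  obtain ⟨w, hw, e⟩ := spec_nonneg (sub_nonneg.mpr ha1) h1
  have : 1 - x = w := by exact_mod_cast e
  exact ⟨x, hx, by linarith, rfl⟩

/-- The Schur multiplier with symbol `(x + y) g(y) - 2 g(x) y` vanishes only on the diagonal. -/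
lemma mult_inj {Q g X : A} (hQ : 0 ≤ Q) (hQ1 : Q ≤ 1) (hg : 0 ≤ g) (cQg : Q * g = g * Q)
    (hg4 : g ^ 4 = 1 + (3 : ℂ) • Q ^ 2)
    (hX : (X * Q + Q * X) * g = (2 : ℂ) • (g * X * Q)) : Q * X = X * Q := by
  have hu := unit_symbol (l := ContinuousLinearMap.mul ℂ A Q)
    (r := (ContinuousLinearMap.mul ℂ A).flip Q) (m := ContinuousLinearMap.mul ℂ A g)
    (n := (ContinuousLinearMap.mul ℂ A).flip g)
    (by ext y; simp [mul_assoc]) (by ext y; simp [← mul_assoc, cQg])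
    (by ext y; simp [mul_assoc]) (by ext y; simp [mul_assoc])
    (by ext y; simp [mul_assoc, cQg]) (by ext y; simp [mul_assoc])
    (fun z hz => spec_unit hQ hQ1 (spec_L Q hz)) (fun z hz => spec_unit hQ hQ1 (spec_R Q hz))
    (fun z hz => spec_nonneg hg (spec_L g hz)) (fun z hz => spec_nonneg hg (spec_R g hz))
    (by
      ext y
      have : g ^ 4 * y = (1 + (3 : ℂ) • Q ^ 2) * y := by rw [hg4]
      simpa [pow_succ, add_mul, mul_assoc] using this)
    (by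
      ext y
      have : y * g ^ 4 = y * (1 + (3 : ℂ) • Q ^ 2) := by rw [hg4]
      simpa [pow_succ, mul_add, mul_assoc] using this)
  obtain ⟨u, hu⟩ := hu
  set Y := Q * X - X * Q with hY
  set Z := g * X - X * g with hZ
  have e1 : Y * g = (2 : ℂ) • (Z * Q) := by
    have : Y * g = (X * Q + Q * X) * g - (2 : ℂ) • (X * (Q * g)) := by
      rw [hY, two_smul]; noncomm_ring
    rw [this, hX, hZ, cQg, ← smul_sub]; congr 1; noncomm_ring
  have e2 : g * g * (g * Z + Z * g) + (g * Z + Z * g) * (g * g) = (3 : ℂ) • (Q * Y + Y * Q) := by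
    have : g * g * (g * Z + Z * g) + (g * Z + Z * g) * (g * g) = g ^ 4 * X - X * g ^ 4 := by
      rw [hZ]; noncomm_ring
    rw [this, hg4, hY]
    simp only [add_mul, mul_add, one_mul, mul_one, smul_mul_assoc, mul_smul_comm]
    rw [add_sub_add_left_eq_sub, ← smul_sub]; congr 1; noncomm_ring
  have e3 : (u : A →L[ℂ] A) Y = 0 := by
    rw [hu]
    have t1 : g * g * (g * (Y * g) + Y * g * g) + (g * (Y * g) + Y * g * g) * (g * g)
        = (6 : ℂ) • ((Q * Y + Y * Q) * Q) := by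
      have hZQ : ∀ W : A, W * Q * g = W * g * Q := fun W => by rw [mul_assoc, cQg, mul_assoc]
      rw [e1]
      have : (6 : ℂ) • ((Q * Y + Y * Q) * Q) = (2 : ℂ) • (((3 : ℂ) • (Q * Y + Y * Q)) * Q) := by
        rw [smul_mul_assoc, smul_smul]; norm_num
      rw [this, ← e2]
      simp only [mul_smul_comm, smul_mul_assoc, ← smul_add]
      congr 1
      simp only [add_mul, mul_add, ← mul_assoc, hZQ]
    have t2 : (Q * Y + Y * Q) * Q = Q * (Y * Q) + Y * Q * Q := by noncomm_ring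
    simp only [sub_apply, smul_apply,
      mul_apply_eq_comp, add_apply, pow_two,
      ContinuousLinearMap.flip_apply, ContinuousLinearMap.mul_apply']
    rw [← t2, ← t1, sub_eq_zero]
    noncomm_ring
  have : Y = 0 := by
    have h1 : ((↑u⁻¹ : A →L[ℂ] A) * u) Y = Y := by rw [u.inv_mul]; rfl
    rw [← h1, mul_apply_eq_comp, e3, map_zero]
  exact sub_eq_zero.mp this

end Pool.Agent.Lib.MP_15115f_an
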