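import Pool.Agent.Lib.MP_15115f_an.Exists
import Pool.Agent.Lib.MP_15115f_an.Comp

namespace Pool.Agent.Lib.MP_15115f_an

open scoped InnerProductSpace

variable {H : Type*} [NormedAddCommGroup H] [InnerProductSpace ℂ H] [CompleteSpace H]

lemma IsPolar.proj {T V : H →L[ℂ] H} (h : IsPolar T V) :
    (T.ker)ᗮ.starProjection = star V * V := by
  ext y
  apply Submodule.eq_starProjection_of_mem_orthogonal
  · intro z hz
    have hz' : V z = 0 := by
      have : z ∈ V.ker := h.2.2 ▸ hz
      exact this
    rw [mul_apply_eq_comp, ContinuousLinearMap.star_eq_adjoint,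
      ContinuousLinearMap.adjoint_inner_right, hz', inner_zero_left]
  · apply Submodule.le_orthogonal_orthogonal
    rw [← h.2.2]
    change V (y - (star V * V) y) = 0
    rw [map_sub, ← mul_apply_eq_comp V, h.pol.VE, sub_self]

end Pool.Agent.Lib.MP_15115f_an
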